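import Pool.Agent.V11201.PS.Couple

/-!
Existence of the coupling, and the disjointness lemma.
-/

open Filter Topology

namespace V11201.PS

open Mean

lemma good_zero (θ : Mean ℕ) (h : ℕ) : Good θ h 0 ((P θ h).map fun z => (z, 0)) := by
  refine ⟨?_, ?_, ?_⟩
  · intro k hk g _
    obtain rfl : k = 0 := by omega
    rw [Mean.map_apply]
    apply P_congr
    intro z hz
    congr 1
    funext j
    unfold win
    by_cases h1 : j < h
    · simp [h1]
    · simp [h1, hz j (by omega)]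
  · intro F _
    have : (fun p : Sq × Sq => |F (trunc 0 p.1) - F (trunc 0 p.2)|) = fun _ => (0 : ℝ) := by
      funext p
      have : trunc 0 p.1 = trunc 0 p.2 := by funext j; simp [trunc]
      rw [this, sub_self, abs_zero]
    rw [this, Mean.const]
  · intro i _ hi F R hF hR
    obtain ⟨k, rfl⟩ : ∃ k, h = (i + 1) + k := ⟨h - (i + 1), by omega⟩
    rw [Mean.map_apply, Mean.map_apply, P_add θ (i + 1) k, P_add θ (i + 1) k]
    have s1 : ∀ z w : Sq, shft (i + 1) (cat (i + 1) z w) = w := by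
      intro z w
      funext j
      unfold shft cat
      rw [if_neg (by omega), Nat.add_sub_cancel]
    have s2 : ∀ z w : Sq, trunc (i + 1) (cat (i + 1) z w) = trunc (i + 1) z := by
      intro z w
      funext j
      unfold trunc cat
      by_cases hj : j < i + 1
      · simp [hj]
      · simp [hj]
    have s3 : ∀ z w : Sq, trunc i (cat (i + 1) z w) = trunc i z := by
      intro z w
      rw [← trunc_trunc (Nat.le_succ i) (cat (i + 1) z w), s2, trunc_trunc (Nat.le_succ i)]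
    simp only [s1, s2, s3]
    have hRb : Bdd (fun w : Sq => R w 0) := hR.comp fun w : Sq => (w, (0 : Sq))
    have hFθ : Bdd (fun z : Sq => θ (fun t => F (Function.update (trunc i z) i t))) := by
      obtain ⟨D, hD⟩ := hF
      exact Mean.bdd_bind₂ (fun _ => θ) (f := fun z t => F (Function.update (trunc i z) i t))
        (C := D) fun z t => hD _
    simp only [(P θ k).smul _ hRb]
    have e : ∀ H : Sq → ℝ, (fun z : Sq => H z * P θ k (fun w => R w 0)) =
        fun z => P θ k (fun w => R w 0) * H z := fun H => funext fun z => mul_comm _ _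
    rw [e, e, (P θ (i + 1)).smul _ (hF.comp _), (P θ (i + 1)).smul _ hFθ, P_succ, P_succ]
    congr 2
    funext z
    have t1 : ∀ t, trunc i (Function.update z i t) = trunc i z := fun t =>
      trunc_update_ge le_rfl z t
    simp only [trunc_update, t1]
    rw [Mean.const]

lemma exists_good (θ : Mean ℕ) (h : ℕ) : ∀ m, m < h → ∃ L, Good θ h m L := by
  intro m
  induction m with
  | zero => intro _; exact ⟨_, good_zero θ h⟩
  | succ m ih =>
    intro hm
    obtain ⟨L, hL⟩ := ih (by omega)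
    exact ⟨_, hL.step hm⟩

/-- `T` contains no product set of two infinite sets of positive integers. -/
def PFree (T : Set ℕ) : Prop :=
  ¬ ∃ A B : Set ℕ, A.Infinite ∧ B.Infinite ∧ (∀ a ∈ A, 0 < a) ∧ (∀ b ∈ B, 0 < b) ∧
    ∀ a ∈ A, ∀ b ∈ B, a * b ∈ T

/-- A mean vanishing on finite sets. -/
def Diffuse (α : Mean ℕ) : Prop := ∀ N : ℕ, α (ind {x | x ≤ N}) = 0

/-- Greedy step: if a mean `β` and sets `Y` and `D x` (`x ∈ X`) are given, finitely many of the
`D x` nearly exhaust what can be exhausted. -/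
lemma exists_near (β : Mean ℕ) (Y : Set ℕ) (D : ℕ → Set ℕ) (X : Set ℕ) {ε : ℝ} (hε : 0 < ε) :
    ∃ F : Finset ℕ, (∀ x ∈ F, x ∈ X) ∧ ∀ x ∈ X,
      β (ind ((Y \ ⋃ y ∈ F, D y) ∩ D x)) ≤ ε := by
  classical
  set v : Finset ℕ → ℝ := fun F => β (ind (Y \ ⋃ y ∈ F, D y)) with hv
  set A : Set ℝ := {r | ∃ F : Finset ℕ, (∀ x ∈ F, x ∈ X) ∧ r = v F} with hA
  have hne : A.Nonempty := ⟨v ∅, ∅, by simp, rfl⟩
  have hbd : BddBelow A := ⟨0, by
    rintro r ⟨F, -, rfl⟩
    exact β.nonneg (ind_bdd _) (ind_nonneg _)⟩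
  obtain ⟨r, ⟨F, hF, rfl⟩, hr⟩ := exists_lt_of_csInf_lt hne (show sInf A < sInf A + ε by linarith)
  refine ⟨F, hF, ?_⟩
  intro x hx
  have h1 : sInf A ≤ v (insert x F) := csInf_le hbd ⟨insert x F, by
    intro y hy
    rcases Finset.mem_insert.1 hy with rfl | hy
    · exact hx
    · exact hF y hy, rfl⟩
  have h2 : v F = v (insert x F) + β (ind ((Y \ ⋃ y ∈ F, D y) ∩ D x)) := by
    simp only [hv]
    rw [← β.add (ind_bdd _) (ind_bdd _)]
    congr 1
    funext y
    by_cases hy : y ∈ Y \ ⋃ y ∈ F, D y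
    · rw [ind_of_mem hy]
      by_cases hd : y ∈ D x
      · rw [ind_of_mem (show y ∈ (Y \ ⋃ y ∈ F, D y) ∩ D x from ⟨hy, hd⟩), ind_of_not_mem]
        · norm_num
        · rintro ⟨-, h⟩
          apply h
          simp only [Set.mem_iUnion]
          exact ⟨x, Finset.mem_insert_self _ _, hd⟩
      · rw [ind_of_not_mem (show y ∉ (Y \ ⋃ y ∈ F, D y) ∩ D x from fun h => hd h.2), ind_of_mem]
        · norm_num
        · refine ⟨hy.1, ?_⟩
          intro h
          simp only [Set.mem_iUnion] at h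
          obtain ⟨z, hz, hzy⟩ := h
          rcases Finset.mem_insert.1 hz with rfl | hz
          · exact hd hzy
          · apply hy.2
            simp only [Set.mem_iUnion]
            exact ⟨z, hz, hzy⟩
    · have n1 : y ∉ (Y \ ⋃ y ∈ F, D y) ∩ D x := fun h => hy h.1
      have n2 : y ∉ Y \ ⋃ y ∈ insert x F, D y := by
        rintro ⟨h1, h2⟩
        apply hy
        refine ⟨h1, ?_⟩
        intro h
        apply h2
        simp only [Set.mem_iUnion] at h ⊢
        obtain ⟨z, hz, hzy⟩ := h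
        exact ⟨z, Finset.mem_insert_of_mem hz, hzy⟩
      rw [ind_of_not_mem hy, ind_of_not_mem n1, ind_of_not_mem n2]
      norm_num
  linarith

section Disjoint

variable {Ω : Type*} (L : Mean Ω) (a a' b : Ω → ℕ) (α β : Mean ℕ) (T : Set ℕ)

/-- The weight of the bad event over `X × Y`. -/
noncomputable def bad (X Y : Set ℕ) : ℝ :=
  L (fun p => ind X (a p) * ind Y (b p) * (ind T (a p * b p) * ind T (a' p * b p)))

lemma bad_bdd (X Y : Set ℕ) :
    Bdd (fun p => ind X (a p) * ind Y (b p) * (ind T (a p * b p) * ind T (a' p * b p))) :=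
  ((ind_comp_bdd _ _).mul (ind_comp_bdd _ _)).mul ((ind_comp_bdd _ _).mul (ind_comp_bdd _ _))

lemma bad_nonneg (X Y : Set ℕ) : 0 ≤ bad L a a' b T X Y :=
  L.nonneg (bad_bdd a a' b T X Y) fun p => by
    have := ind_nonneg X (a p); have := ind_nonneg Y (b p)
    have := ind_nonneg T (a p * b p); have := ind_nonneg T (a' p * b p)
    positivity

/-- Splitting off finitely many pieces of `Y`. -/
lemma bad_split_right (X Y : Set ℕ) (F : Finset ℕ) (D : ℕ → Set ℕ) :
    bad L a a' b T X Y ≤ bad L a a' b T X (Y \ ⋃ x ∈ F, D x) +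
      ∑ x ∈ F, bad L a a' b T X (Y ∩ D x) := by
  unfold bad
  rw [← L.sum F _ fun x _ => bad_bdd a a' b T X (Y ∩ D x), ← L.add (bad_bdd a a' b T X _)
    (Bdd.sum _ fun x _ => bad_bdd a a' b T X (Y ∩ D x))]
  apply L.mono (bad_bdd a a' b T X Y) ((bad_bdd a a' b T X _).add
    (Bdd.sum _ fun x _ => bad_bdd a a' b T X (Y ∩ D x)))
  intro p
  set c := ind T (a p * b p) * ind T (a' p * b p) with hc
  have hc0 : 0 ≤ c := mul_nonneg (ind_nonneg _ _) (ind_nonneg _ _)
  have hX := ind_nonneg X (a p)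
  have hnn : ∀ x ∈ F, 0 ≤ ind X (a p) * ind (Y ∩ D x) (b p) * c := fun x _ =>
    mul_nonneg (mul_nonneg hX (ind_nonneg _ _)) hc0
  by_cases hy : b p ∈ Y
  · by_cases hd : b p ∈ ⋃ x ∈ F, D x
    · simp only [Set.mem_iUnion] at hd
      obtain ⟨x, hx, hxd⟩ := hd
      have h1 : ind X (a p) * ind Y (b p) * c ≤ ∑ x ∈ F, ind X (a p) * ind (Y ∩ D x) (b p) * c := by
        refine le_trans (le_of_eq ?_) (Finset.single_le_sum hnn hx)
        rw [ind_of_mem hy, ind_of_mem (show b p ∈ Y ∩ D x from ⟨hy, hxd⟩)]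
      have h2 : 0 ≤ ind X (a p) * ind (Y \ ⋃ x ∈ F, D x) (b p) * c :=
        mul_nonneg (mul_nonneg hX (ind_nonneg _ _)) hc0
      linarith
    · have h1 : ind X (a p) * ind Y (b p) * c = ind X (a p) * ind (Y \ ⋃ x ∈ F, D x) (b p) * c := by
        rw [ind_of_mem hy, ind_of_mem (show b p ∈ Y \ ⋃ x ∈ F, D x from ⟨hy, hd⟩)]
      have := Finset.sum_nonneg hnn
      linarith
  · have h1 : ind X (a p) * ind Y (b p) * c = 0 := by rw [ind_of_not_mem hy]; ring
    have h2 : 0 ≤ ind X (a p) * ind (Y \ ⋃ x ∈ F, D x) (b p) * c :=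
      mul_nonneg (mul_nonneg hX (ind_nonneg _ _)) hc0
    have := Finset.sum_nonneg hnn
    linarith

/-- Splitting off finitely many pieces of `X`. -/
lemma bad_split_left (X Y : Set ℕ) (F : Finset ℕ) (D : ℕ → Set ℕ) :
    bad L a a' b T X Y ≤ bad L a a' b T (X \ ⋃ x ∈ F, D x) Y +
      ∑ x ∈ F, bad L a a' b T (X ∩ D x) Y := by
  unfold bad
  rw [← L.sum F _ fun x _ => bad_bdd a a' b T (X ∩ D x) Y, ← L.add (bad_bdd a a' b T _ Y)
    (Bdd.sum _ fun x _ => bad_bdd a a' b T (X ∩ D x) Y)]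
  apply L.mono (bad_bdd a a' b T X Y) ((bad_bdd a a' b T _ Y).add
    (Bdd.sum _ fun x _ => bad_bdd a a' b T (X ∩ D x) Y))
  intro p
  set c := ind T (a p * b p) * ind T (a' p * b p) with hc
  have hc0 : 0 ≤ c := mul_nonneg (ind_nonneg _ _) (ind_nonneg _ _)
  have hY := ind_nonneg Y (b p)
  have hnn : ∀ x ∈ F, 0 ≤ ind (X ∩ D x) (a p) * ind Y (b p) * c := fun x _ =>
    mul_nonneg (mul_nonneg (ind_nonneg _ _) hY) hc0
  by_cases hx : a p ∈ X
  · by_cases hd : a p ∈ ⋃ x ∈ F, D x
    · simp only [Set.mem_iUnion] at hd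
      obtain ⟨x, hxF, hxd⟩ := hd
      have h1 : ind X (a p) * ind Y (b p) * c ≤ ∑ x ∈ F, ind (X ∩ D x) (a p) * ind Y (b p) * c := by
        refine le_trans (le_of_eq ?_) (Finset.single_le_sum hnn hxF)
        rw [ind_of_mem hx, ind_of_mem (show a p ∈ X ∩ D x from ⟨hx, hxd⟩)]
      have h2 : 0 ≤ ind (X \ ⋃ x ∈ F, D x) (a p) * ind Y (b p) * c :=
        mul_nonneg (mul_nonneg (ind_nonneg _ _) hY) hc0
      linarith
    · have h1 : ind X (a p) * ind Y (b p) * c = ind (X \ ⋃ x ∈ F, D x) (a p) * ind Y (b p) * c := by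
        rw [ind_of_mem hx, ind_of_mem (show a p ∈ X \ ⋃ x ∈ F, D x from ⟨hx, hd⟩)]
      have := Finset.sum_nonneg hnn
      linarith
  · have h1 : ind X (a p) * ind Y (b p) * c = 0 := by rw [ind_of_not_mem hx]; ring
    have h2 : 0 ≤ ind (X \ ⋃ x ∈ F, D x) (a p) * ind Y (b p) * c :=
      mul_nonneg (mul_nonneg (ind_nonneg _ _) hY) hc0
    have := Finset.sum_nonneg hnn
    linarith

/-- The hypotheses on the three random numbers. -/
structure Hyp : Prop where
  h1 : ∀ (f : ℕ → ℕ → ℝ) (C : ℝ), (∀ x y, |f x y| ≤ C) →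
    L (fun p => f (a p) (b p)) = α (fun x => β (fun y => f x y))
  h2 : ∀ (f : ℕ → ℕ → ℝ) (C : ℝ), (∀ x y, |f x y| ≤ C) →
    L (fun p => f (a' p) (b p)) = β (fun y => α (fun x => f x y))
  h3 : ∀ F : ℕ → ℝ, Bdd F → L (fun p => |F (a p) - F (a' p)|) = 0
  hα : Diffuse α
  hβ : Diffuse β

variable {L a a' b α β T}

lemma prod3_le {X Y T : Set ℕ} (x y z : ℕ) : |ind X x * ind Y y * ind T z| ≤ 1 := by
  rw [abs_mul, abs_mul]
  have h1 := abs_ind_le X x
  have h2 := abs_ind_le Y y
  have h3 := abs_ind_le T z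
  have p1 := abs_nonneg (ind X x)
  have p2 := abs_nonneg (ind Y y)
  have p3 := abs_nonneg (ind T z)
  calc |ind X x| * |ind Y y| * |ind T z| ≤ 1 * 1 * 1 := by
        apply mul_le_mul (mul_le_mul h1 h2 p2 zero_le_one) h3 p3 (by norm_num)
    _ = 1 := by norm_num

lemma Hyp.stepA (H : Hyp L a a' b α β) {X Y : Set ℕ} (hb : 0 < bad L a a' b T X Y) (N : ℕ) :
    ∃ x ∈ X, N < x ∧ 0 < bad L a a' b T X (Y ∩ {y | x * y ∈ T}) := by
  by_contra hcon
  push Not at hcon
  have hz : ∀ x ∈ X, N < x → bad L a a' b T X (Y ∩ {y | x * y ∈ T}) = 0 := fun x hx hN =>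
    le_antisymm (hcon x hx hN) (bad_nonneg L a a' b T _ _)
  set ε := bad L a a' b T X Y / 2 with hε
  have hε0 : 0 < ε := by positivity
  obtain ⟨F, hF, hFn⟩ := exists_near β Y (fun x => {y | x * y ∈ T}) (X ∩ Set.Ioi N) hε0
  have h1 := bad_split_right L a a' b T X Y F (fun x => {y | x * y ∈ T})
  rw [Finset.sum_eq_zero fun x hx => hz x (hF x hx).1 (hF x hx).2, add_zero] at h1
  set Y' := Y \ ⋃ x ∈ F, {y | x * y ∈ T} with hY'
  have h2 : bad L a a' b T X Y' ≤
      L (fun p => ind X (a p) * ind Y' (b p) * ind T (a p * b p)) := by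
    unfold bad
    apply L.mono (bad_bdd a a' b T X Y')
      (((ind_comp_bdd _ _).mul (ind_comp_bdd _ _)).mul (ind_comp_bdd _ _))
    intro p
    have := ind_nonneg X (a p); have := ind_nonneg Y' (b p)
    have := ind_nonneg T (a p * b p); have h5 := ind_le_one T (a' p * b p)
    apply mul_le_mul_of_nonneg_left _ (by positivity)
    nlinarith
  rw [H.h1 (fun x y => ind X x * ind Y' y * ind T (x * y)) 1 fun x y => prod3_le _ _ _] at h2
  have hbb : Bdd (fun x => β (fun y => ind X x * ind Y' y * ind T (x * y))) :=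
    ⟨1, fun x => β.abs_le fun y => prod3_le _ _ _⟩
  have h3 : α (fun x => β (fun y => ind X x * ind Y' y * ind T (x * y))) ≤
      α (fun x => ε + ind {x | x ≤ N} x) := by
    apply α.mono hbb ((Bdd.const _).add (ind_bdd _))
    intro x
    by_cases hxX : x ∈ X
    · by_cases hxN : x ≤ N
      · rw [ind_of_mem (show x ∈ {x | x ≤ N} from hxN)]
        have := β.abs_le (f := fun y => ind X x * ind Y' y * ind T (x * y)) (C := 1)
          fun y => prod3_le _ _ _
        have := (abs_le.1 this).2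
        linarith
      · have hxm : x ∈ X ∩ Set.Ioi N := ⟨hxX, not_le.1 hxN⟩
        have h4 := hFn x hxm
        have h5 : (fun y => ind X x * ind Y' y * ind T (x * y)) =
            ind (Y' ∩ {y | x * y ∈ T}) := by
          funext y
          rw [ind_of_mem hxX, one_mul]
          by_cases hy : y ∈ Y'
          · by_cases hyT : x * y ∈ T
            · have m1 : y ∈ Y' ∩ {y | x * y ∈ T} := ⟨hy, hyT⟩
              rw [ind_of_mem hy, ind_of_mem hyT, ind_of_mem m1, one_mul]
            · have n1 : y ∉ Y' ∩ {y | x * y ∈ T} := fun h => hyT h.2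
              rw [ind_of_not_mem hyT, ind_of_not_mem n1, mul_zero]
          · have n1 : y ∉ Y' ∩ {y | x * y ∈ T} := fun h => hy h.1
            rw [ind_of_not_mem hy, ind_of_not_mem n1, zero_mul]
        rw [h5]
        have := ind_nonneg {x | x ≤ N} x
        linarith
    · have h5 : (fun y => ind X x * ind Y' y * ind T (x * y)) = fun _ => (0 : ℝ) := by
        funext y
        rw [ind_of_not_mem hxX]; ring
      rw [h5, Mean.const]
      have := ind_nonneg {x | x ≤ N} x
      linarith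
  rw [α.add (Bdd.const _) (ind_bdd _), Mean.const, H.hα N, add_zero] at h3
  linarith

lemma Hyp.stepB (H : Hyp L a a' b α β) {X Y : Set ℕ} (hb : 0 < bad L a a' b T X Y) (N : ℕ) :
    ∃ y ∈ Y, N < y ∧ 0 < bad L a a' b T (X ∩ {x | x * y ∈ T}) Y := by
  by_contra hcon
  push Not at hcon
  have hz : ∀ y ∈ Y, N < y → bad L a a' b T (X ∩ {x | x * y ∈ T}) Y = 0 := fun x hx hN =>
    le_antisymm (hcon x hx hN) (bad_nonneg L a a' b T _ _)
  set ε := bad L a a' b T X Y / 2 with hε
  have hε0 : 0 < ε := by positivity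
  obtain ⟨F, hF, hFn⟩ := exists_near α X (fun y => {x | x * y ∈ T}) (Y ∩ Set.Ioi N) hε0
  have h1 := bad_split_left L a a' b T X Y F (fun y => {x | x * y ∈ T})
  rw [Finset.sum_eq_zero fun x hx => hz x (hF x hx).1 (hF x hx).2, add_zero] at h1
  set X' := X \ ⋃ y ∈ F, {x | x * y ∈ T} with hX'
  have hbd1 : Bdd (fun p => ind X' (a p) * ind Y (b p) * ind T (a' p * b p)) :=
    ((ind_comp_bdd _ _).mul (ind_comp_bdd _ _)).mul (ind_comp_bdd _ _)
  have hbd2 : Bdd (fun p => ind X' (a' p) * ind Y (b p) * ind T (a' p * b p)) :=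
    ((ind_comp_bdd _ _).mul (ind_comp_bdd _ _)).mul (ind_comp_bdd _ _)
  have h2 : bad L a a' b T X' Y ≤
      L (fun p => ind X' (a p) * ind Y (b p) * ind T (a' p * b p)) := by
    unfold bad
    apply L.mono (bad_bdd a a' b T X' Y) hbd1
    intro p
    have := ind_nonneg X' (a p); have := ind_nonneg Y (b p)
    have := ind_nonneg T (a' p * b p); have h5 := ind_le_one T (a p * b p)
    apply mul_le_mul_of_nonneg_left _ (by positivity)
    nlinarith
  have h2' : L (fun p => ind X' (a p) * ind Y (b p) * ind T (a' p * b p)) =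
      L (fun p => ind X' (a' p) * ind Y (b p) * ind T (a' p * b p)) := by
    have e1 := H.h3 (ind X') (ind_bdd _)
    have e2 := L.mul_zero_of ((ind_comp_bdd X' a).sub (ind_comp_bdd X' a'))
      ((ind_comp_bdd Y b).mul (ind_comp_bdd T fun p => a' p * b p)) e1
    have e3 : (fun p => (ind X' (a p) - ind X' (a' p)) * (ind Y (b p) * ind T (a' p * b p))) =
        fun p => ind X' (a p) * ind Y (b p) * ind T (a' p * b p) -
          ind X' (a' p) * ind Y (b p) * ind T (a' p * b p) := by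
      funext p; ring
    rw [e3, L.sub hbd1 hbd2] at e2
    linarith
  rw [h2', H.h2 (fun x y => ind X' x * ind Y y * ind T (x * y)) 1 fun x y => prod3_le _ _ _] at h2
  have hbb : Bdd (fun y => α (fun x => ind X' x * ind Y y * ind T (x * y))) :=
    ⟨1, fun y => α.abs_le fun x => prod3_le _ _ _⟩
  have h3 : β (fun y => α (fun x => ind X' x * ind Y y * ind T (x * y))) ≤
      β (fun y => ε + ind {y | y ≤ N} y) := by
    apply β.mono hbb ((Bdd.const _).add (ind_bdd _))
    intro y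
    by_cases hyY : y ∈ Y
    · by_cases hyN : y ≤ N
      · rw [ind_of_mem (show y ∈ {y | y ≤ N} from hyN)]
        have := α.abs_le (f := fun x => ind X' x * ind Y y * ind T (x * y)) (C := 1)
          fun x => prod3_le _ _ _
        have := (abs_le.1 this).2
        linarith
      · have hym : y ∈ Y ∩ Set.Ioi N := ⟨hyY, not_le.1 hyN⟩
        have h4 := hFn y hym
        have h5 : (fun x => ind X' x * ind Y y * ind T (x * y)) =
            ind (X' ∩ {x | x * y ∈ T}) := by
          funext x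
          rw [ind_of_mem hyY, mul_one]
          by_cases hx : x ∈ X'
          · by_cases hxT : x * y ∈ T
            · have m1 : x ∈ X' ∩ {x | x * y ∈ T} := ⟨hx, hxT⟩
              rw [ind_of_mem hx, ind_of_mem hxT, ind_of_mem m1, one_mul]
            · have n1 : x ∉ X' ∩ {x | x * y ∈ T} := fun h => hxT h.2
              rw [ind_of_not_mem hxT, ind_of_not_mem n1, mul_zero]
          · have n1 : x ∉ X' ∩ {x | x * y ∈ T} := fun h => hx h.1
            rw [ind_of_not_mem hx, ind_of_not_mem n1, zero_mul]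
        rw [h5]
        have := ind_nonneg {y | y ≤ N} y
        linarith
    · have h5 : (fun x => ind X' x * ind Y y * ind T (x * y)) = fun _ => (0 : ℝ) := by
        funext x
        rw [ind_of_not_mem hyY]; ring
      rw [h5, Mean.const]
      have := ind_nonneg {y | y ≤ N} y
      linarith
  rw [β.add (Bdd.const _) (ind_bdd _), Mean.const, H.hβ N, add_zero] at h3
  linarith

/-- The disjointness lemma. -/
theorem Hyp.disjoint (H : Hyp L a a' b α β) (hT : PFree T) :
    L (fun p => ind T (a p * b p) * ind T (a' p * b p)) = 0 := by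
  have e : L (fun p => ind T (a p * b p) * ind T (a' p * b p)) =
      bad L a a' b T Set.univ Set.univ := by
    unfold bad
    congr 1
    funext p
    rw [ind_of_mem (Set.mem_univ _), ind_of_mem (Set.mem_univ _)]
    ring
  rw [e]
  by_contra hne
  have hpos : 0 < bad L a a' b T Set.univ Set.univ :=
    lt_of_le_of_ne (bad_nonneg L a a' b T _ _) (Ne.symm hne)
  apply hT
  have hstep : ∀ (s : {q : Set ℕ × Set ℕ // 0 < bad L a a' b T q.1 q.2}) (N : ℕ),
      ∃ (x y : ℕ) (s' : {q : Set ℕ × Set ℕ // 0 < bad L a a' b T q.1 q.2}),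
        x ∈ s.1.1 ∧ N < x ∧ N < y ∧ y ∈ s'.1.2 ∧
        s'.1.1 = s.1.1 ∩ {x | x * y ∈ T} ∧ s'.1.2 = s.1.2 ∩ {y | x * y ∈ T} := by
    rintro ⟨⟨X, Y⟩, hs⟩ N
    obtain ⟨x, hx, hNx, h1⟩ := H.stepA hs N
    obtain ⟨y, hy, hNy, h2⟩ := H.stepB h1 N
    exact ⟨x, y, ⟨(X ∩ {x | x * y ∈ T}, Y ∩ {y | x * y ∈ T}), h2⟩, hx, hNx, hNy, hy, rfl, rfl⟩
  choose fx fy fs hf using hstep
  set sq : ℕ → {q : Set ℕ × Set ℕ // 0 < bad L a a' b T q.1 q.2} :=
    fun n => Nat.rec ⟨(Set.univ, Set.univ), hpos⟩ (fun n s => fs s n) n with hsq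
  have hsucc : ∀ n, sq (n + 1) = fs (sq n) n := fun n => rfl
  have hx1 : ∀ n, fx (sq n) n ∈ (sq n).1.1 := fun n => (hf (sq n) n).1
  have hx2 : ∀ n, n < fx (sq n) n := fun n => (hf (sq n) n).2.1
  have hy2 : ∀ n, n < fy (sq n) n := fun n => (hf (sq n) n).2.2.1
  have hy1 : ∀ n, fy (sq n) n ∈ (sq (n + 1)).1.2 := fun n => (hf (sq n) n).2.2.2.1
  have hX : ∀ n, (sq (n + 1)).1.1 = (sq n).1.1 ∩ {x | x * fy (sq n) n ∈ T} :=
    fun n => (hf (sq n) n).2.2.2.2.1
  have hY : ∀ n, (sq (n + 1)).1.2 = (sq n).1.2 ∩ {y | fx (sq n) n * y ∈ T} :=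
    fun n => (hf (sq n) n).2.2.2.2.2
  have hXa : Antitone (fun n => (sq n).1.1) := antitone_nat_of_succ_le fun n => by
    change (sq (n + 1)).1.1 ⊆ (sq n).1.1
    rw [hX]; exact Set.inter_subset_left
  have hYa : Antitone (fun n => (sq n).1.2) := antitone_nat_of_succ_le fun n => by
    change (sq (n + 1)).1.2 ⊆ (sq n).1.2
    rw [hY]; exact Set.inter_subset_left
  refine ⟨Set.range fun n => fx (sq n) n, Set.range fun n => fy (sq n) n, ?_, ?_, ?_, ?_, ?_⟩
  · apply Set.infinite_of_forall_exists_gt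
    intro n
    exact ⟨_, ⟨n, rfl⟩, hx2 n⟩
  · apply Set.infinite_of_forall_exists_gt
    intro n
    exact ⟨_, ⟨n, rfl⟩, hy2 n⟩
  · rintro _ ⟨n, rfl⟩
    exact lt_of_le_of_lt (Nat.zero_le _) (hx2 n)
  · rintro _ ⟨n, rfl⟩
    exact lt_of_le_of_lt (Nat.zero_le _) (hy2 n)
  · rintro _ ⟨i, rfl⟩ _ ⟨k, rfl⟩
    rcases le_or_gt i k with hik | hik
    · have h1 : fy (sq k) k ∈ (sq (i + 1)).1.2 := hYa (Nat.succ_le_succ hik) (hy1 k)
      rw [hY] at h1
      exact h1.2
    · have h1 : fx (sq i) i ∈ (sq (k + 1)).1.1 := hXa (Nat.succ_le_of_lt hik) (hx1 i)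
      rw [hX] at h1
      exact h1.2

end Disjoint

end V11201.PS
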