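import Pool.Agent.V11201.PS.Iter

/-!
A coupling of iterated means.
-/

open Filter Topology

namespace V11201.PS

open Mean

/-- If the indicator functions of all sets agree almost surely at `φ` and `ψ`, so do all bounded
functions. -/
lemma ae_eq_of_sets {α β : Type*} (m : Mean α) (φ ψ : α → β)
    (h : ∀ W : Set β, m (fun p => |ind W (φ p) - ind W (ψ p)|) = 0)
    {F : β → ℝ} (hF : Bdd F) : m (fun p => |F (φ p) - F (ψ p)|) = 0 := by
  obtain ⟨C, hC0, hC⟩ := hF.nonneg_bound
  have hbF : Bdd (fun p => |F (φ p) - F (ψ p)|) := ((hF.comp φ).sub (hF.comp ψ)).abs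
  apply le_antisymm _ (m.nonneg hbF fun p => abs_nonneg _)
  apply le_of_forall_pos_le_add
  intro ε hε
  rw [zero_add]
  set G : β → ℤ := fun x => ⌊F x / ε⌋ with hG
  obtain ⟨K, hK⟩ : ∃ K : ℕ, C / ε + 1 ≤ K := exists_nat_ge _
  have hGmem : ∀ x, G x ∈ Finset.Icc (-(K : ℤ)) (K : ℤ) := by
    intro x
    have h1 := _root_.abs_le.1 (hC x)
    have h2 : -(C / ε) ≤ F x / ε := by
      rw [← neg_div]; exact div_le_div_of_nonneg_right h1.1 hε.le
    have h3 : F x / ε ≤ C / ε := div_le_div_of_nonneg_right h1.2 hε.le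
    rw [Finset.mem_Icc]
    constructor
    · apply Int.le_floor.2
      push_cast
      linarith
    · have : (⌊F x / ε⌋ : ℝ) ≤ F x / ε := Int.floor_le _
      have h4 : (⌊F x / ε⌋ : ℝ) ≤ (K : ℝ) := by linarith
      exact_mod_cast h4
  set D : ℤ → α → ℝ := fun v p => |ind {x | G x = v} (φ p) - ind {x | G x = v} (ψ p)| with hD
  have hDb : ∀ v, Bdd (D v) := fun v => ((ind_comp_bdd _ φ).sub (ind_comp_bdd _ ψ)).abs
  have hpt : ∀ p, |F (φ p) - F (ψ p)| ≤
      ε + (2 * C) * ∑ v ∈ Finset.Icc (-(K : ℤ)) (K : ℤ), D v p := by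
    intro p
    by_cases hEq : G (φ p) = G (ψ p)
    · have hs : 0 ≤ ∑ v ∈ Finset.Icc (-(K : ℤ)) (K : ℤ), D v p :=
        Finset.sum_nonneg fun v _ => abs_nonneg _
      have h1 : |F (φ p) / ε - F (ψ p) / ε| < 1 := Int.abs_sub_lt_one_of_floor_eq_floor hEq
      have h2 : F (φ p) / ε - F (ψ p) / ε = (F (φ p) - F (ψ p)) / ε := by ring
      rw [h2, abs_div, abs_of_pos hε, div_lt_one hε] at h1
      have : 0 ≤ (2 * C) * ∑ v ∈ Finset.Icc (-(K : ℤ)) (K : ℤ), D v p := by positivity
      linarith
    · have h1 : D (G (φ p)) p = 1 := by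
        simp only [hD]
        rw [ind_of_mem (show φ p ∈ {x | G x = G (φ p)} from rfl),
          ind_of_not_mem (show ψ p ∉ {x | G x = G (φ p)} from fun h => hEq h.symm)]
        norm_num
      have h2 : (1 : ℝ) ≤ ∑ v ∈ Finset.Icc (-(K : ℤ)) (K : ℤ), D v p := by
        rw [← h1]
        exact Finset.single_le_sum (f := fun v => D v p) (fun v _ => abs_nonneg _) (hGmem _)
      have h3 : |F (φ p) - F (ψ p)| ≤ C + C := (abs_sub _ _).trans (add_le_add (hC _) (hC _))
      nlinarith
  have hsumb : Bdd (fun p => ∑ v ∈ Finset.Icc (-(K : ℤ)) (K : ℤ), D v p) :=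
    Bdd.sum _ fun v _ => hDb v
  have h5 := m.mono hbF ((Bdd.const ε).add (hsumb.smul (2 * C))) hpt
  rw [m.add (Bdd.const ε) (hsumb.smul (2 * C)), m.const, m.smul _ hsumb,
    m.sum _ D fun v _ => hDb v] at h5
  have h6 : ∑ v ∈ Finset.Icc (-(K : ℤ)) (K : ℤ), m (D v) = 0 :=
    Finset.sum_eq_zero fun v _ => h _
  rw [h6, mul_zero, add_zero] at h5
  exact h5

lemma ind_congr {α β : Type*} {s : Set α} {t : Set β} {x : α} {y : β} (h : x ∈ s ↔ y ∈ t) :
    ind s x = ind t y := by
  by_cases hx : x ∈ s
  · rw [ind_of_mem hx, ind_of_mem (h.1 hx)]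
  · rw [ind_of_not_mem hx, ind_of_not_mem fun hy => hx (h.2 hy)]

open Classical in
/-- The class of a point with respect to a finite family of sets. -/
noncomputable def cls {β : Type*} (S : Finset (Set β)) (x : β) : Finset (Set β) :=
  S.filter fun U => x ∈ U

lemma cls_mem {β : Type*} (S : Finset (Set β)) (x : β) : cls S x ∈ S.powerset := by
  classical
  exact Finset.mem_powerset.2 (Finset.filter_subset _ _)

/-- Points with a given class. -/
def cell {β : Type*} (S χ : Finset (Set β)) : Set β := {x | cls S x = χ}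

lemma sum_cell {β : Type*} (S : Finset (Set β)) (x : β) (c : Finset (Set β) → ℝ) :
    ∑ χ ∈ S.powerset, ind (cell S χ) x * c χ = c (cls S x) := by
  classical
  rw [Finset.sum_eq_single (cls S x)]
  · rw [ind_of_mem (show x ∈ cell S (cls S x) from rfl), one_mul]
  · intro χ _ hne
    rw [ind_of_not_mem (show x ∉ cell S χ from fun h => hne h.symm), zero_mul]
  · intro h
    exact absurd (cls_mem S x) h

/-- The set of admissible next entries for the second sequence, for the class `χ`. -/
def nxt (m : ℕ) (S χ : Finset (Set Sq)) (a : Sq) : Set ℕ :=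
  {t | trunc (m + 1) (Function.update a m t) ∈ cell S χ}

lemma trunc_update (m : ℕ) (a : Sq) (t : ℕ) :
    trunc (m + 1) (Function.update a m t) = Function.update (trunc m a) m t := by
  funext j
  unfold trunc
  by_cases h : j = m
  · subst h; simp
  · rw [Function.update_of_ne h, Function.update_of_ne h]
    by_cases h1 : j < m
    · simp [h1, Nat.lt_succ_of_lt h1]
    · have : ¬ j < m + 1 := by omega
      simp [h1, this]

lemma trunc_trunc {m n : ℕ} (h : m ≤ n) (a : Sq) : trunc m (trunc n a) = trunc m a := by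
  funext j
  unfold trunc
  by_cases h1 : j < m
  · simp [h1, lt_of_lt_of_le h1 h]
  · simp [h1]

lemma trunc_update_ge {m i : ℕ} (h : m ≤ i) (a : Sq) (t : ℕ) :
    trunc m (Function.update a i t) = trunc m a := by
  funext j
  unfold trunc
  by_cases h1 : j < m
  · simp only [h1, if_true]
    rw [Function.update_of_ne (by omega)]
  · simp [h1]

lemma nxt_trunc (m : ℕ) (S χ : Finset (Set Sq)) (a : Sq) :
    nxt m S χ (trunc m a) = nxt m S χ a := by
  unfold nxt
  simp only [trunc_update, trunc_trunc le_rfl]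

/-- The window number `k`. -/
def win (h k : ℕ) (z z' : Sq) : Sq :=
  fun j => if j + k < h then z (j + k) else if j < h then z' (j + k - h) else 0

/-- The properties of the coupling of level `m`. -/
structure Good (θ : Mean ℕ) (h m : ℕ) (L : Mean (Sq × Sq)) : Prop where
  win : ∀ k ≤ m, ∀ g : Sq → ℝ, Bdd g → L (fun p => g (win h k p.1 p.2)) = P θ h g
  eq : ∀ F : Sq → ℝ, Bdd F → L (fun p => |F (trunc m p.1) - F (trunc m p.2)|) = 0
  ind : ∀ i, m ≤ i → i < h → ∀ (F : Sq → ℝ) (R : Sq → Sq → ℝ), Bdd F →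
    Bdd (fun q : Sq × Sq => R q.1 q.2) →
    L (fun p => F (trunc (i + 1) p.1) * R (shft (i + 1) p.1) p.2) =
      L (fun p => θ (fun t => F (Function.update (trunc i p.1) i t)) *
        R (shft (i + 1) p.1) p.2)

/-- One step of the coupling, for a finite family of sets. -/
noncomputable def ext (θ : Mean ℕ) (m : ℕ) (L : Mean (Sq × Sq)) (S : Finset (Set Sq)) :
    Mean (Sq × Sq) :=
  L.bind fun p => (θ.cond (nxt m S (cls S (trunc (m + 1) p.1)) p.2)).map fun t =>
    (p.1, Function.update p.2 m t)

/-- The core identity. -/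
lemma Good.core {θ : Mean ℕ} {h m : ℕ} {L : Mean (Sq × Sq)} (G : Good θ h m L) (hm : m < h)
    (S χ : Finset (Set Sq)) (R : Sq → Sq → ℝ) (hR : Bdd (fun q : Sq × Sq => R q.1 q.2)) :
    L (fun p => V11201.PS.ind (cell S χ) (trunc (m + 1) p.1) * R (shft (m + 1) p.1) p.2) =
      L (fun p => θ (V11201.PS.ind (nxt m S χ p.2)) * R (shft (m + 1) p.1) p.2) := by
  rw [G.ind m le_rfl hm _ R (ind_bdd _) hR]
  set q : Sq → ℝ := fun a => θ (V11201.PS.ind (nxt m S χ a)) with hq
  have hqb : Bdd q := ⟨1, fun a => θ.abs_le fun t => by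
    rw [abs_of_nonneg (ind_nonneg _ _)]; exact ind_le_one _ _⟩
  have hqt : ∀ a, q (trunc m a) = q a := fun a => by simp only [hq, nxt_trunc]
  have h1 : ∀ a : Sq, θ (fun t => V11201.PS.ind (cell S χ) (Function.update (trunc m a) m t))
      = q a := by
    intro a
    simp only [hq]
    congr 1
    funext t
    apply ind_congr
    rw [← trunc_update]
    exact Iff.rfl
  simp only [h1]
  have hRc : Bdd (fun p : Sq × Sq => R (shft (m + 1) p.1) p.2) :=
    hR.comp fun p : Sq × Sq => (shft (m + 1) p.1, p.2)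
  have hq1 : Bdd (fun p : Sq × Sq => q p.1) := hqb.comp _
  have hq2 : Bdd (fun p : Sq × Sq => q p.2) := hqb.comp _
  have h2 := G.eq q hqb
  simp only [hqt] at h2
  have h3 := L.mul_zero_of (hq1.sub hq2) hRc h2
  have h4 : (fun p : Sq × Sq => (q p.1 - q p.2) * R (shft (m + 1) p.1) p.2) =
      fun p => q p.1 * R (shft (m + 1) p.1) p.2 - q p.2 * R (shft (m + 1) p.1) p.2 :=
    funext fun p => by ring
  rw [h4, L.sub (hq1.mul hRc) (hq2.mul hRc)] at h3
  linarith

/-- Integrating a function over the new entry in the extension. -/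
lemma Good.int_next {θ : Mean ℕ} {h m : ℕ} {L : Mean (Sq × Sq)} (G : Good θ h m L) (hm : m < h)
    (S : Finset (Set Sq)) (R : Sq → Sq → ℕ → ℝ) {C : ℝ} (hR : ∀ s a t, |R s a t| ≤ C) :
    L (fun p => θ.cond (nxt m S (cls S (trunc (m + 1) p.1)) p.2)
      (fun t => R (shft (m + 1) p.1) p.2 t)) =
      L (fun p => θ (fun t => R (shft (m + 1) p.1) p.2 t)) := by
  have hRb : ∀ s a, Bdd (fun t => R s a t) := fun s a => ⟨C, hR s a⟩
  have e1 : (fun p : Sq × Sq => θ.cond (nxt m S (cls S (trunc (m + 1) p.1)) p.2)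
      (fun t => R (shft (m + 1) p.1) p.2 t)) =
      fun p => ∑ χ ∈ S.powerset, V11201.PS.ind (cell S χ) (trunc (m + 1) p.1) *
        θ.cond (nxt m S χ p.2) (fun t => R (shft (m + 1) p.1) p.2 t) :=
    funext fun p => (sum_cell S (trunc (m + 1) p.1) fun χ =>
      θ.cond (nxt m S χ p.2) (fun t => R (shft (m + 1) p.1) p.2 t)).symm
  have e2 : (fun p : Sq × Sq => θ (fun t => R (shft (m + 1) p.1) p.2 t)) =
      fun p => ∑ χ ∈ S.powerset, θ (V11201.PS.ind (nxt m S χ p.2)) *
        θ.cond (nxt m S χ p.2) (fun t => R (shft (m + 1) p.1) p.2 t) := by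
    funext p
    have e3 : ∀ χ, θ (V11201.PS.ind (nxt m S χ p.2)) *
        θ.cond (nxt m S χ p.2) (fun t => R (shft (m + 1) p.1) p.2 t) =
        θ (fun t => V11201.PS.ind (nxt m S χ p.2) t * R (shft (m + 1) p.1) p.2 t) :=
      fun χ => θ.cond_mul _ (hRb _ _)
    simp only [e3]
    rw [← θ.sum _ (fun χ t => V11201.PS.ind (nxt m S χ p.2) t * R (shft (m + 1) p.1) p.2 t)
      fun χ _ => (ind_bdd _).mul (hRb _ _)]
    congr 1
    funext t
    exact (sum_cell S (trunc (m + 1) (Function.update p.2 m t)) fun _ =>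
      R (shft (m + 1) p.1) p.2 t).symm
  have hcb : ∀ χ, Bdd (fun q : Sq × Sq => θ.cond (nxt m S χ q.2) (fun t => R q.1 q.2 t)) :=
    fun χ => Mean.bdd_bind₂ (fun q : Sq × Sq => θ.cond (nxt m S χ q.2))
      (f := fun q t => R q.1 q.2 t) fun q t => hR _ _ _
  have hcb' : ∀ χ, Bdd (fun p : Sq × Sq => θ.cond (nxt m S χ p.2)
      (fun t => R (shft (m + 1) p.1) p.2 t)) :=
    fun χ => (hcb χ).comp fun p : Sq × Sq => (shft (m + 1) p.1, p.2)
  rw [e1, e2, L.sum _ _ fun χ _ => (ind_comp_bdd _ _).mul (hcb' χ),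
    L.sum _ _ fun χ _ => (Mean.bdd_bind₂ (fun _ : Sq × Sq => θ)
      (f := fun p t => V11201.PS.ind (nxt m S χ p.2) t) (C := 1) fun q t => by
        rw [abs_of_nonneg (ind_nonneg _ _)]; exact ind_le_one _ _).mul (hcb' χ)]
  apply Finset.sum_congr rfl
  intro χ _
  exact G.core hm S χ (fun s a => θ.cond (nxt m S χ a) (fun t => R s a t)) (hcb χ)

lemma abs_ind_le {α : Type*} (s : Set α) (x : α) : |ind s x| ≤ 1 := by
  rw [abs_of_nonneg (ind_nonneg _ _)]; exact ind_le_one _ _

/-- The class of the first sequence is almost surely realised after the second one. -/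
lemma Good.null_next {θ : Mean ℕ} {h m : ℕ} {L : Mean (Sq × Sq)} (G : Good θ h m L) (hm : m < h)
    (S : Finset (Set Sq)) :
    L (V11201.PS.ind {p : Sq × Sq |
      θ (V11201.PS.ind (nxt m S (cls S (trunc (m + 1) p.1)) p.2)) = 0}) = 0 := by
  set Z : Finset (Set Sq) → Sq → ℝ := fun χ a =>
    V11201.PS.ind {a : Sq | θ (V11201.PS.ind (nxt m S χ a)) = 0} a with hZ
  have e1 : V11201.PS.ind {p : Sq × Sq |
      θ (V11201.PS.ind (nxt m S (cls S (trunc (m + 1) p.1)) p.2)) = 0} =
      fun p => ∑ χ ∈ S.powerset, V11201.PS.ind (cell S χ) (trunc (m + 1) p.1) * Z χ p.2 := by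
    funext p
    rw [sum_cell S (trunc (m + 1) p.1) fun χ => Z χ p.2]
    apply ind_congr
    exact Iff.rfl
  have hZb : ∀ χ, Bdd (fun q : Sq × Sq => Z χ q.2) := fun χ => ind_comp_bdd _ _
  rw [e1, L.sum _ _ fun χ _ => (ind_comp_bdd _ _).mul (hZb χ)]
  apply Finset.sum_eq_zero
  intro χ _
  rw [G.core hm S χ (fun _ a => Z χ a) (hZb χ)]
  have : (fun p : Sq × Sq => θ (V11201.PS.ind (nxt m S χ p.2)) * Z χ p.2) = fun _ => (0 : ℝ) := by
    funext p
    by_cases h0 : θ (V11201.PS.ind (nxt m S χ p.2)) = 0
    · rw [h0, zero_mul]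
    · have : Z χ p.2 = 0 := ind_of_not_mem h0
      rw [this, mul_zero]
  rw [this, L.const]

lemma ext_apply (θ : Mean ℕ) (m : ℕ) (L : Mean (Sq × Sq)) (S : Finset (Set Sq))
    (g : Sq × Sq → ℝ) :
    ext θ m L S g = L (fun p => θ.cond (nxt m S (cls S (trunc (m + 1) p.1)) p.2)
      (fun t => g (p.1, Function.update p.2 m t))) := rfl

lemma win_update_lt {h k m : ℕ} (hk : k ≤ m) (z z' : Sq) (t : ℕ) :
    V11201.PS.win h k z (Function.update z' m t) = V11201.PS.win h k z z' := by
  funext j
  unfold V11201.PS.win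
  by_cases h1 : j + k < h
  · simp [h1]
  · by_cases h2 : j < h
    · simp only [h1, h2, if_true, if_false]
      rw [Function.update_of_ne (by omega)]
    · simp [h1, h2]

/-- The old part of the next window. -/
def wold (h m : ℕ) (s a : Sq) : Sq :=
  fun j => if j + 1 + m < h then s j else if j + 1 < h then a (j + 1 + m - h) else 0

lemma shft_win (h m : ℕ) (z z' : Sq) :
    shft 1 (V11201.PS.win h m z z') = wold h m (shft (m + 1) z) z' := by
  funext j
  unfold shft V11201.PS.win wold
  have : j + 1 + m = j + (m + 1) := by ring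
  rw [this]

lemma win_succ {h m : ℕ} (hm : m + 1 ≤ h) (z z' : Sq) (t : ℕ) :
    V11201.PS.win h (m + 1) z (Function.update z' m t) =
      Function.update (wold h m (shft (m + 1) z) z') (h - 1) t := by
  funext j
  unfold V11201.PS.win
  by_cases hj : j = h - 1
  · subst hj
    rw [Function.update_self, if_neg (by omega), if_pos (by omega)]
    have : h - 1 + (m + 1) - h = m := by omega
    rw [this, Function.update_self]
  · rw [Function.update_of_ne hj]
    unfold wold shft
    by_cases h1 : j + (m + 1) < h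
    · have : j + 1 + m < h := by omega
      simp [h1, this]
    · have h1' : ¬ j + 1 + m < h := by omega
      by_cases h2 : j < h
      · have h3 : j + 1 < h := by omega
        simp only [h1, h1', h2, h3, if_true, if_false]
        rw [Function.update_of_ne (by omega)]
        congr 1
        omega
      · have h3 : ¬ j + 1 < h := by omega
        simp [h1, h1', h2, h3]

/-- The limit extension. -/
noncomputable def extLim (θ : Mean ℕ) (m : ℕ) (L : Mean (Sq × Sq)) : Mean (Sq × Sq) :=
  Mean.ulim (Ultrafilter.of (atTop : Filter (Finset (Set Sq)))) (ext θ m L)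

lemma extLim_const {θ : Mean ℕ} {m : ℕ} {L : Mean (Sq × Sq)} {g : Sq × Sq → ℝ} (hg : Bdd g)
    {c : ℝ} (h : ∀ S, ext θ m L S g = c) : extLim θ m L g = c :=
  Mean.ulim_eq _ _ hg (Filter.Eventually.of_forall h)

lemma Good.step {θ : Mean ℕ} {h m : ℕ} {L : Mean (Sq × Sq)} (G : Good θ h m L)
    (hm : m + 1 < h) : Good θ h (m + 1) (extLim θ m L) := by
  have hm' : m < h := by omega
  refine ⟨?_, ?_, ?_⟩
  · intro k hk g hg
    apply extLim_const (hg.comp _)
    intro S
    rw [ext_apply]
    rcases Nat.lt_or_ge k (m + 1) with hk' | hk'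
    · have e : (fun p : Sq × Sq => θ.cond (nxt m S (cls S (trunc (m + 1) p.1)) p.2)
          (fun t => g (V11201.PS.win h k (p.1, Function.update p.2 m t).1
            (p.1, Function.update p.2 m t).2))) = fun p => g (V11201.PS.win h k p.1 p.2) := by
        funext p
        simp only [win_update_lt (Nat.lt_succ_iff.1 hk')]
        rw [Mean.const]
      rw [e, G.win k (Nat.lt_succ_iff.1 hk') g hg]
    · have hkm : k = m + 1 := by omega
      subst hkm
      obtain ⟨C, hC⟩ := id hg
      obtain ⟨n, rfl⟩ : ∃ n, h = n + 1 := ⟨h - 1, by omega⟩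
      have e : (fun p : Sq × Sq => θ.cond (nxt m S (cls S (trunc (m + 1) p.1)) p.2)
          (fun t => g (V11201.PS.win (n + 1) (m + 1) (p.1, Function.update p.2 m t).1
            (p.1, Function.update p.2 m t).2))) =
          fun p => θ.cond (nxt m S (cls S (trunc (m + 1) p.1)) p.2)
          (fun t => g (Function.update (wold (n + 1) m (shft (m + 1) p.1) p.2) n t)) := by
        funext p
        congr 1
        funext t
        have := win_succ (h := n + 1) (m := m) (by omega) p.1 p.2 t
        simp only [Nat.add_sub_cancel] at this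
        rw [this]
      rw [e, G.int_next hm' S (fun s a t => g (Function.update (wold (n + 1) m s a) n t))
        (C := C) fun s a t => hC _]
      have e2 : (fun p : Sq × Sq => θ (fun t => g (Function.update
          (wold (n + 1) m (shft (m + 1) p.1) p.2) n t))) =
          fun p => (fun w : Sq => θ (fun t => g (Function.update (shft 1 w) n t)))
            (V11201.PS.win (n + 1) m p.1 p.2) := by
        funext p
        simp only [shft_win]
      rw [e2, G.win m le_rfl _ (Mean.bdd_bind₂ (fun _ => θ)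
        (f := fun w t => g (Function.update (shft 1 w) n t)) fun w t => hC _), P_rot]
  · intro F hF
    apply ae_eq_of_sets (extLim θ m L) (fun p => trunc (m + 1) p.1) (fun p => trunc (m + 1) p.2)
      _ hF
    intro W
    have hb : Bdd (fun p : Sq × Sq =>
        |V11201.PS.ind W (trunc (m + 1) p.1) - V11201.PS.ind W (trunc (m + 1) p.2)|) :=
      ((ind_comp_bdd _ _).sub (ind_comp_bdd _ _)).abs
    apply Mean.ulim_eq _ _ hb
    have hev : ∀ᶠ S : Finset (Set Sq) in
        (Ultrafilter.of (atTop : Filter (Finset (Set Sq))) : Filter (Finset (Set Sq))), W ∈ S := by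
      have h1 : ∀ᶠ S : Finset (Set Sq) in (atTop : Filter (Finset (Set Sq))), W ∈ S := by
        filter_upwards [Filter.eventually_ge_atTop ({W} : Finset (Set Sq))] with S hS
        exact hS (Finset.mem_singleton_self W)
      exact (Ultrafilter.of_le _) h1
    filter_upwards [hev] with S hS
    rw [ext_apply]
    have hcb : Bdd (fun p : Sq × Sq => θ.cond (nxt m S (cls S (trunc (m + 1) p.1)) p.2)
        (fun t => |V11201.PS.ind W (trunc (m + 1) (p.1, Function.update p.2 m t).1) -
          V11201.PS.ind W (trunc (m + 1) (p.1, Function.update p.2 m t).2)|)) := by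
      obtain ⟨C, hC⟩ := hb
      exact Mean.bdd_bind₂ (fun p : Sq × Sq => θ.cond (nxt m S (cls S (trunc (m + 1) p.1)) p.2))
        (f := fun p t => |V11201.PS.ind W (trunc (m + 1) (p.1, Function.update p.2 m t).1) -
          V11201.PS.ind W (trunc (m + 1) (p.1, Function.update p.2 m t).2)|)
        (C := C) fun p t => hC (p.1, Function.update p.2 m t)
    apply le_antisymm
    · rw [← G.null_next hm' S]
      apply L.mono hcb (ind_bdd _)
      intro p
      by_cases h0 : θ (V11201.PS.ind (nxt m S (cls S (trunc (m + 1) p.1)) p.2)) = 0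
      · rw [ind_of_mem (show p ∈ {p : Sq × Sq |
          θ (V11201.PS.ind (nxt m S (cls S (trunc (m + 1) p.1)) p.2)) = 0} from h0)]
        apply Mean.le_const
        · exact hb.comp fun t => (p.1, Function.update p.2 m t)
        · intro t
          rw [abs_sub_le_iff]
          have a1 := ind_nonneg W (trunc (m + 1) (p.1, Function.update p.2 m t).1)
          have a2 := ind_le_one W (trunc (m + 1) (p.1, Function.update p.2 m t).1)
          have a3 := ind_nonneg W (trunc (m + 1) (p.1, Function.update p.2 m t).2)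
          have a4 := ind_le_one W (trunc (m + 1) (p.1, Function.update p.2 m t).2)
          constructor <;> linarith
      · rw [Mean.cond_eq_zero _ h0]
        · exact ind_nonneg _ _
        · intro t ht
          have h1 : cls S (trunc (m + 1) (Function.update p.2 m t)) =
            cls S (trunc (m + 1) p.1) := ht
          have h2 : (trunc (m + 1) p.1 ∈ W) ↔
              (trunc (m + 1) (Function.update p.2 m t) ∈ W) := by
            have h3 : W ∈ cls S (trunc (m + 1) (Function.update p.2 m t)) ↔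
              W ∈ cls S (trunc (m + 1) p.1) := by rw [h1]
            unfold cls at h3
            simp only [Finset.mem_filter, hS, true_and] at h3
            exact h3.symm
          rw [ind_congr (s := W) (t := W) h2, sub_self, abs_zero]
    · apply L.nonneg hcb
      intro p
      apply Mean.nonneg
      · exact hb.comp fun t => (p.1, Function.update p.2 m t)
      · intro t
        exact abs_nonneg _
  · intro i hmi hi F R hF hR
    unfold extLim Mean.ulim
    simp only
    congr 1
    funext S
    rw [ext_apply, ext_apply]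
    obtain ⟨C, hC⟩ := id hR
    have hRt : ∀ (z a : Sq), Bdd (fun t => R (shft (i + 1) z) (Function.update a m t)) :=
      fun z a => ⟨C, fun t => hC (shft (i + 1) z, Function.update a m t)⟩
    set q : Finset (Set Sq) → Sq → Sq → ℝ := fun χ s a =>
      θ.cond (nxt m S χ a) (fun t => R s (Function.update a m t)) with hq
    have hqb : ∀ χ, Bdd (fun p : Sq × Sq => q χ p.1 p.2) := fun χ =>
      Mean.bdd_bind₂ (fun p : Sq × Sq => θ.cond (nxt m S χ p.2))
        (f := fun p t => R p.1 (Function.update p.2 m t)) (C := C)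
        fun p t => hC (p.1, Function.update p.2 m t)
    have e1 : ∀ H : Sq → ℝ, (fun p : Sq × Sq => θ.cond (nxt m S (cls S (trunc (m + 1) p.1)) p.2)
        (fun t => H p.1 * R (shft (i + 1) p.1) (Function.update p.2 m t))) =
        fun p => ∑ χ ∈ S.powerset, V11201.PS.ind (cell S χ) (trunc (m + 1) p.1) *
          (H p.1 * q χ (shft (i + 1) p.1) p.2) := by
      intro H
      funext p
      rw [sum_cell S (trunc (m + 1) p.1) fun χ => H p.1 * q χ (shft (i + 1) p.1) p.2]
      exact Mean.smul _ (H p.1) (hRt p.1 p.2)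
    rw [e1 (fun z => F (trunc (i + 1) z)),
      e1 (fun z => θ (fun t => F (Function.update (trunc i z) i t)))]
    have hFθ : Bdd (fun z : Sq => θ (fun t => F (Function.update (trunc i z) i t))) := by
      obtain ⟨D, hD⟩ := hF
      exact Mean.bdd_bind₂ (fun _ => θ) (f := fun z t => F (Function.update (trunc i z) i t))
        (C := D) fun z t => hD _
    have hqc : ∀ χ, Bdd (fun p : Sq × Sq => q χ (shft (i + 1) p.1) p.2) := fun χ =>
      (hqb χ).comp fun p : Sq × Sq => (shft (i + 1) p.1, p.2)
    rw [L.sum _ _ fun χ _ => (ind_comp_bdd _ _).mul ((hF.comp _).mul (hqc χ)),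
      L.sum _ _ fun χ _ => (ind_comp_bdd _ _).mul ((hFθ.comp _).mul (hqc χ))]
    apply Finset.sum_congr rfl
    intro χ _
    have h1 := G.ind i (by omega) hi
      (fun l => V11201.PS.ind (cell S χ) (trunc (m + 1) l) * F l) (q χ)
      ((ind_comp_bdd _ _).mul hF) (hqb χ)
    have t1 : ∀ z : Sq, trunc (m + 1) (trunc (i + 1) z) = trunc (m + 1) z :=
      fun z => trunc_trunc (by omega) z
    have t2 : ∀ (z : Sq) (t : ℕ), trunc (m + 1) (Function.update (trunc i z) i t) =
        trunc (m + 1) z := fun z t => by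
      rw [trunc_update_ge (by omega), trunc_trunc (by omega)]
    simp only [t1, t2] at h1
    have h2 : ∀ z : Sq, θ (fun t => V11201.PS.ind (cell S χ) (trunc (m + 1) z) *
        F (Function.update (trunc i z) i t)) = V11201.PS.ind (cell S χ) (trunc (m + 1) z) *
        θ (fun t => F (Function.update (trunc i z) i t)) := fun z =>
      θ.smul _ (hF.comp _)
    simp only [h2] at h1
    calc L (fun p => V11201.PS.ind (cell S χ) (trunc (m + 1) p.1) *
          (F (trunc (i + 1) p.1) * q χ (shft (i + 1) p.1) p.2))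
        = L (fun p => V11201.PS.ind (cell S χ) (trunc (m + 1) p.1) *
          F (trunc (i + 1) p.1) * q χ (shft (i + 1) p.1) p.2) := by
          congr 1; funext p; ring
      _ = _ := h1
      _ = _ := by congr 1; funext p; ring

end V11201.PS
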