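import Pool.Agent.V11201.PS.Window

/-!
A dilation invariant mean, the covering lemma and the conclusion.
-/

open Filter Topology Finset

namespace V11201.PS

open Mean

/-- The average over `0, …, N`. -/
noncomputable def avg (N : ℕ) : Mean ℕ where
  toFun f := (∑ e ∈ range (N + 1), f e) / (N + 1)
  mono' f g _ _ h := by
    apply div_le_div_of_nonneg_right _ (by positivity)
    exact sum_le_sum fun i _ => h i
  add' f g _ _ := by rw [sum_add_distrib, add_div]
  smul' c f _ := by rw [← mul_sum, mul_div_assoc]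
  one' := by
    rw [sum_const, card_range, nsmul_eq_mul]
    push_cast
    field_simp

lemma avg_apply (N : ℕ) (f : ℕ → ℝ) : avg N f = (∑ e ∈ range (N + 1), f e) / (N + 1) := rfl

/-- Random products of powers of the numbers `1, …, n`. -/
noncomputable def rnd (N : ℕ) : ℕ → Mean ℕ
  | 0 => Mean.pure 1
  | n + 1 => (rnd N n).bind fun x => (avg N).map fun e => (n + 1) ^ e * x

lemma rnd_zero (N : ℕ) (f : ℕ → ℝ) : rnd N 0 f = f 1 := rfl

lemma rnd_succ (N n : ℕ) (f : ℕ → ℝ) :
    rnd N (n + 1) f = rnd N n (fun x => avg N (fun e => f ((n + 1) ^ e * x))) := rfl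

lemma rnd_pos (N n : ℕ) (f : ℕ → ℝ) (hf : ∀ x, 0 < x → f x = 0) : rnd N n f = 0 := by
  induction n generalizing f with
  | zero => rw [rnd_zero]; exact hf 1 one_pos
  | succ n ih =>
    rw [rnd_succ]
    apply ih
    intro x hx
    have : (fun e => f ((n + 1) ^ e * x)) = fun _ => (0 : ℝ) := by
      funext e
      exact hf _ (by positivity)
    rw [this, Mean.const]

lemma rnd_dil (N n c : ℕ) (hc : 1 ≤ c) (hcn : c ≤ n) (f : ℕ → ℝ) (C : ℝ) (hf : ∀ x, |f x| ≤ C) :
    |rnd N n (fun x => f (c * x)) - rnd N n f| ≤ 2 * C / (N + 1) := by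
  have hN : (0 : ℝ) < N + 1 := by positivity
  induction n generalizing f with
  | zero => omega
  | succ n ih =>
    rcases Nat.lt_or_ge c (n + 1) with h | h
    · have h1 := ih (by omega) (fun x => avg N (fun e => f ((n + 1) ^ e * x)))
        fun x => (avg N).abs_le fun e => hf _
      rw [rnd_succ, rnd_succ]
      have e : (fun x => avg N (fun e => f (c * ((n + 1) ^ e * x)))) =
          fun x => avg N (fun e => f ((n + 1) ^ e * (c * x))) := by
        funext x
        congr 1
        funext e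
        congr 1
        ring
      rw [e]
      exact h1
    · obtain rfl : c = n + 1 := by omega
      rw [rnd_succ, rnd_succ]
      have hb1 : Bdd (fun x => avg N (fun e => f ((n + 1) * ((n + 1) ^ e * x)))) :=
        ⟨C, fun x => (avg N).abs_le fun e => hf _⟩
      have hb2 : Bdd (fun x => avg N (fun e => f ((n + 1) ^ e * x))) :=
        ⟨C, fun x => (avg N).abs_le fun e => hf _⟩
      rw [← (rnd N n).sub hb1 hb2]
      apply Mean.abs_le
      intro x
      rw [avg_apply, avg_apply, ← sub_div, ← sum_sub_distrib]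
      have e : ∀ e : ℕ, f ((n + 1) * ((n + 1) ^ e * x)) = f ((n + 1) ^ (e + 1) * x) := by
        intro e
        congr 1
        ring
      simp only [e]
      rw [sum_range_sub (fun e => f ((n + 1) ^ e * x)), abs_div, abs_of_pos hN]
      apply div_le_div_of_nonneg_right _ hN.le
      have h1 := hf ((n + 1) ^ (N + 1) * x)
      have h2 := hf ((n + 1) ^ 0 * x)
      have h3 := abs_sub (f ((n + 1) ^ (N + 1) * x)) (f ((n + 1) ^ 0 * x))
      linarith

/-- The dilation invariant mean. -/
noncomputable def lam : Mean ℕ := ulim (hyperfilter ℕ) (fun n => rnd n n)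

lemma lam_pos (f : ℕ → ℝ) (hb : Bdd f) (hf : ∀ x, 0 < x → f x = 0) : lam f = 0 := by
  unfold lam
  apply ulim_eq _ _ hb
  exact Eventually.of_forall fun n => rnd_pos n n f hf

lemma lam_dil {c : ℕ} (hc : 1 ≤ c) {f : ℕ → ℝ} (hb : Bdd f) :
    lam (fun x => f (c * x)) = lam f := by
  obtain ⟨C, hC⟩ := hb
  have h1 := ulim_tendsto (hyperfilter ℕ) (fun n => rnd n n) (f := fun x => f (c * x))
    ⟨C, fun x => hC _⟩
  have h2 := ulim_tendsto (hyperfilter ℕ) (fun n => rnd n n) (f := f) ⟨C, hC⟩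
  have h3 := h1.sub h2
  have h4 : Tendsto (fun n : ℕ => rnd n n (fun x => f (c * x)) - rnd n n f) atTop (𝓝 0) := by
    have h5 : Tendsto (fun n : ℕ => 2 * C / ((n : ℝ) + 1)) atTop (𝓝 0) := by
      have := tendsto_one_div_add_atTop_nhds_zero_nat (𝕜 := ℝ)
      have h6 := this.const_mul (2 * C)
      rw [mul_zero] at h6
      refine h6.congr fun n => ?_
      ring
    rw [tendsto_zero_iff_abs_tendsto_zero]
    refine squeeze_zero' (Eventually.of_forall fun n => abs_nonneg _) ?_ h5
    filter_upwards [eventually_ge_atTop c] with n hn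
    exact rnd_dil n n c hc hn f C hC
  have h5 : Tendsto (fun n : ℕ => rnd n n (fun x => f (c * x)) - rnd n n f)
      (hyperfilter ℕ : Filter ℕ) (𝓝 0) := h4.mono_left Nat.hyperfilter_le_atTop
  have h6 := tendsto_nhds_unique h3 h5
  unfold lam
  linarith

lemma lam_diffuse : Diffuse lam := by
  intro N
  rw [← lam_dil (c := N + 1) (by omega) (ind_bdd _)]
  apply lam_pos _ (ind_comp_bdd _ _)
  intro x hx
  apply ind_of_not_mem
  intro h
  have h' : (N + 1) * x ≤ N := h
  have := Nat.le_mul_of_pos_right (N + 1) hx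
  omega

/-- The law of the factors. -/
noncomputable def tht : Mean ℕ := lam.map fun u => 1 + u

lemma tht_diffuse : Diffuse tht := by
  intro N
  unfold tht
  rw [Mean.map_apply]
  apply null_of_le _ (ind_comp_bdd _ _) (ind_bdd _) (fun _ => ind_nonneg _ _) _ (lam_diffuse N)
  intro u
  by_cases hu : u ≤ N
  · rw [ind_of_mem (show u ∈ {x | x ≤ N} from hu)]
    exact ind_le_one _ _
  · rw [ind_of_not_mem]
    · exact ind_nonneg _ _
    · intro h
      have h' : 1 + u ≤ N := h
      omega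

/-- One step of the covering lemma. -/
lemma cover_one (L : ℕ) (g : ℕ → ℕ → ℝ) (hb : ∀ j, Bdd (g j)) (c : ℝ)
    (hg : ∀ N, 1 ≤ N → c ≤ ∑ j ∈ range (L + 1), g j (N + j)) (N : ℕ) (hN : 1 ≤ N) :
    c ≤ ∑ j ∈ range (L + 1), tht (fun z => g j ((N + j) * z)) := by
  have e : ∀ j ∈ range (L + 1), tht (fun z => g j ((N + j) * z)) =
      lam (fun u => g j (N * (1 + u * ∏ i ∈ range (L + 1), (N + i)) + j)) := by
    intro j hj
    unfold tht
    rw [Mean.map_apply]
    have h1 : 1 ≤ N * ∏ i ∈ (range (L + 1)).erase j, (N + i) :=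
      Nat.mul_pos hN (prod_pos fun i _ => by omega)
    rw [← lam_dil h1 (f := fun u => g j ((N + j) * (1 + u))) ((hb j).comp _)]
    congr 1
    funext u
    congr 1
    rw [← mul_prod_erase (range (L + 1)) (fun i => N + i) hj]
    ring
  rw [sum_congr rfl e, ← lam.sum _ _ fun j _ => (hb j).comp _]
  apply lam.const_le (Bdd.sum _ fun j _ => (hb j).comp _)
  intro u
  exact hg _ (Nat.mul_pos hN (by omega))

/-- The covering lemma. -/
lemma cover (L : ℕ) (h : ℕ) : ∀ (g : ℕ → ℕ → ℝ) (_ : ∀ j, Bdd (g j)) (c : ℝ)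
    (_ : ∀ N, 1 ≤ N → c ≤ ∑ j ∈ range (L + 1), g j (N + j)) (N : ℕ) (_ : 1 ≤ N),
    c ≤ ∑ j ∈ range (L + 1), P tht h (fun w => g j ((N + j) * pr h w)) := by
  induction h with
  | zero =>
    intro g hb c hg N hN
    have e : ∀ j ∈ range (L + 1), P tht 0 (fun w => g j ((N + j) * pr 0 w)) = g j (N + j) := by
      intro j _
      rw [P_zero]
      unfold pr
      simp
    rw [sum_congr rfl e]
    exact hg N hN
  | succ h ih =>
    intro g hb c hg N hN
    have e : ∀ j ∈ range (L + 1), P tht (h + 1) (fun w => g j ((N + j) * pr (h + 1) w)) =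
        P tht h (fun w => (fun x => tht (fun z => g j (x * z))) ((N + j) * pr h w)) := by
      intro j _
      rw [P_succ]
      congr 1
      funext w
      simp only [pr_update, mul_assoc]
    rw [sum_congr rfl e]
    refine ih (fun j x => tht (fun z => g j (x * z))) ?_ c ?_ N hN
    · intro j
      obtain ⟨C, hC⟩ := hb j
      exact ⟨C, fun x => tht.abs_le fun z => hC _⟩
    · intro N' hN'
      exact cover_one L g hb c hg N' hN'

lemma PFree.dil {S : Set ℕ} (hS : PFree S) (c : ℕ) (hc : 1 ≤ c) : PFree {n | c * n ∈ S} := by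
  rintro ⟨A, B, hA, hB, hA0, hB0, hAB⟩
  apply hS
  refine ⟨(fun a => c * a) '' A, B, ?_, hB, ?_, hB0, ?_⟩
  · apply hA.image
    intro x _ y _ hxy
    exact Nat.eq_of_mul_eq_mul_left hc hxy
  · rintro _ ⟨a, ha, rfl⟩
    exact Nat.mul_pos hc (hA0 a ha)
  · rintro _ ⟨a, ha, rfl⟩ b hb
    have := hAB a ha b hb
    show c * a * b ∈ S
    rw [mul_assoc]
    exact this

/-- Every syndetic set of positive integers contains a product set of two infinite sets. -/
theorem main (S : Set ℕ) (L : ℕ) (hS : ∀ n, 1 ≤ n → ∃ m ∈ S, n ≤ m ∧ m ≤ n + L) :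
    ∃ A B : Set ℕ, A.Infinite ∧ B.Infinite ∧ (∀ a ∈ A, 0 < a) ∧ (∀ b ∈ B, 0 < b) ∧
      ∀ a ∈ A, ∀ b ∈ B, a * b ∈ S := by
  by_contra hcon
  have hfree : PFree S := hcon
  have hg : ∀ N, 1 ≤ N → (1 : ℝ) ≤ ∑ j ∈ range (L + 1), ind S (N + j) := by
    intro N hN
    obtain ⟨m, hm, h1, h2⟩ := hS N hN
    have h3 : ind S (N + (m - N)) = 1 := by
      have : N + (m - N) = m := by omega
      rw [this, ind_of_mem hm]
    rw [← h3]
    exact single_le_sum (f := fun j => ind S (N + j)) (fun j _ => ind_nonneg _ _)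
      (mem_range.2 (by omega))
  have h1 := cover L (L + 2) (fun _ => ind S) (fun _ => ind_bdd S) 1 hg 1 le_rfl
  have h2 : ∀ j ∈ range (L + 1), ((L + 2 : ℕ) : ℝ) *
      P tht (L + 2) (fun w => ind S ((1 + j) * pr (L + 2) w)) ≤ 1 := by
    intro j _
    exact window_bound tht tht_diffuse (hfree.dil (1 + j) (by omega)) (L + 2)
  have h3 := sum_le_sum h2
  rw [← mul_sum, sum_const, card_range, nsmul_eq_mul, mul_one] at h3
  have h4 : ((L + 2 : ℕ) : ℝ) * 1 ≤ ((L + 1 : ℕ) : ℝ) :=
    (mul_le_mul_of_nonneg_left h1 (by positivity)).trans h3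
  push_cast at h4
  linarith

end V11201.PS
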