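import Pool.Agent.V11201.PS.Mean

/-!
Iterated means on sequences, and the nesting lemma.
-/

namespace V11201.PS

open Mean

/-- Sequences of natural numbers. -/
abbrev Sq := ℕ → ℕ

/-- Truncation: keep the first `n` entries. -/
def trunc (n : ℕ) (z : Sq) : Sq := fun j => if j < n then z j else 0

/-- Shift: drop the first `n` entries. -/
def shft (n : ℕ) (z : Sq) : Sq := fun j => z (j + n)

/-- Concatenation at place `n`. -/
def cat (n : ℕ) (z w : Sq) : Sq := fun j => if j < n then z j else w (j - n)

/-- Iterated mean: the first `n` entries are chosen one after the other with law `θ` (entry `0`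
outermost); the other entries are `0`. -/
noncomputable def P (θ : Mean ℕ) : ℕ → Mean Sq
  | 0 => Mean.pure 0
  | n + 1 => (P θ n).bind fun z => θ.map fun t => Function.update z n t

lemma P_zero (θ : Mean ℕ) (g : Sq → ℝ) : P θ 0 g = g 0 := rfl

lemma P_succ (θ : Mean ℕ) (n : ℕ) (g : Sq → ℝ) :
    P θ (n + 1) g = P θ n (fun z => θ (fun t => g (Function.update z n t))) := rfl

lemma cat_update (n k : ℕ) (z w : Sq) (t : ℕ) :
    Function.update (cat n z w) (n + k) t = cat n z (Function.update w k t) := by
  funext j
  unfold cat
  by_cases h : j = n + k
  · subst h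
    simp
  · rw [Function.update_of_ne h]
    by_cases hj : j < n
    · simp [hj]
    · simp only [hj, if_false]
      rw [Function.update_of_ne]
      omega

/-- Nesting. -/
lemma P_add (θ : Mean ℕ) (n k : ℕ) (g : Sq → ℝ) :
    P θ (n + k) g = P θ n (fun z => P θ k (fun w => g (cat n z w))) := by
  induction k generalizing g with
  | zero =>
    rw [add_zero]
    -- entries beyond `n` vanish
    have key : ∀ (m : ℕ) (g : Sq → ℝ), P θ m g = P θ m (fun z => g (cat m z 0)) := by
      intro m
      induction m with
      | zero =>
        intro g
        simp only [P_zero]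
        congr 1
      | succ m ih =>
        intro g
        rw [P_succ, P_succ, ih, ih (fun z => θ fun t => g (cat (m + 1) (Function.update z m t) 0))]
        congr 1
        funext z
        congr 1
        funext t
        congr 1
        funext j
        unfold cat
        by_cases hj : j = m
        · subst hj; simp
        · rw [Function.update_of_ne hj]
          by_cases h1 : j < m
          · have : j < m + 1 := by omega
            simp [h1, this]
          · have : ¬ j < m + 1 := by omega
            simp [h1, this]
    rw [key]
    rfl
  | succ k ih =>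
    rw [← add_assoc, P_succ, ih]
    congr 1
    funext z
    rw [P_succ]
    congr 1
    funext w
    congr 1
    funext t
    rw [cat_update]

/-- Two functions with the same truncations have the same mean. -/
lemma P_congr (θ : Mean ℕ) (n : ℕ) {f g : Sq → ℝ}
    (h : ∀ z, (∀ j, n ≤ j → z j = 0) → f z = g z) : P θ n f = P θ n g := by
  have h0 := P_add θ n 0 f
  have h1 := P_add θ n 0 g
  simp only [P_zero, add_zero] at h0 h1
  rw [h0, h1]
  congr 1
  funext z
  apply h
  intro j hj
  unfold cat
  rw [if_neg (by omega)]
  rfl

/-- Dropping the first entry. -/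
lemma P_shft (θ : Mean ℕ) (n : ℕ) (g : Sq → ℝ) :
    P θ (n + 1) (fun z => g (shft 1 z)) = P θ n g := by
  rw [add_comm, P_add]
  have : (fun z : Sq => P θ n (fun w => g (shft 1 (cat 1 z w)))) = fun _ => P θ n g := by
    funext z
    rfl
  rw [this, Mean.const]

/-- Rotation: drop the first entry and put a new one at the end. -/
lemma P_rot (θ : Mean ℕ) (n : ℕ) (g : Sq → ℝ) :
    P θ (n + 1) (fun z => θ (fun t => g (Function.update (shft 1 z) n t))) = P θ (n + 1) g := by
  rw [P_shft θ n (fun z => θ (fun t => g (Function.update z n t))), P_succ]

end V11201.PS
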