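import Mathlib

/-!
Finitely additive means on bounded real functions.
-/

open Filter Topology

namespace V11201.PS

/-- A bounded real function. -/
def Bdd {α : Type*} (f : α → ℝ) : Prop := ∃ C : ℝ, ∀ x, |f x| ≤ C

lemma Bdd.const {α : Type*} (c : ℝ) : Bdd (fun _ : α => c) := ⟨|c|, fun _ => le_rfl⟩

lemma Bdd.nonneg_bound {α : Type*} {f : α → ℝ} (h : Bdd f) :
    ∃ C : ℝ, 0 ≤ C ∧ ∀ x, |f x| ≤ C := by
  obtain ⟨C, hC⟩ := h
  exact ⟨max C 0, le_max_right _ _, fun x => (hC x).trans (le_max_left _ _)⟩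

lemma Bdd.add {α : Type*} {f g : α → ℝ} (hf : Bdd f) (hg : Bdd g) :
    Bdd (fun x => f x + g x) := by
  obtain ⟨C, hC⟩ := hf
  obtain ⟨D, hD⟩ := hg
  exact ⟨C + D, fun x => (abs_add_le _ _).trans (add_le_add (hC x) (hD x))⟩

lemma Bdd.mul {α : Type*} {f g : α → ℝ} (hf : Bdd f) (hg : Bdd g) :
    Bdd (fun x => f x * g x) := by
  obtain ⟨C, hC0, hC⟩ := hf.nonneg_bound
  obtain ⟨D, hD0, hD⟩ := hg.nonneg_bound
  exact ⟨C * D, fun x => by
    rw [abs_mul]; exact mul_le_mul (hC x) (hD x) (abs_nonneg _) hC0⟩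

lemma Bdd.smul {α : Type*} {f : α → ℝ} (c : ℝ) (hf : Bdd f) : Bdd (fun x => c * f x) :=
  (Bdd.const c).mul hf

lemma Bdd.neg {α : Type*} {f : α → ℝ} (hf : Bdd f) : Bdd (fun x => - f x) := by
  obtain ⟨C, hC⟩ := hf
  exact ⟨C, fun x => by rw [abs_neg]; exact hC x⟩

lemma Bdd.sub {α : Type*} {f g : α → ℝ} (hf : Bdd f) (hg : Bdd g) :
    Bdd (fun x => f x - g x) := by
  obtain ⟨C, hC⟩ := hf
  obtain ⟨D, hD⟩ := hg
  exact ⟨C + D, fun x => (abs_sub _ _).trans (add_le_add (hC x) (hD x))⟩

lemma Bdd.abs {α : Type*} {f : α → ℝ} (hf : Bdd f) : Bdd (fun x => |f x|) := by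
  obtain ⟨C, hC⟩ := hf
  exact ⟨C, fun x => by rw [abs_abs]; exact hC x⟩

lemma Bdd.comp {α β : Type*} {f : β → ℝ} (hf : Bdd f) (φ : α → β) : Bdd (fun x => f (φ x)) := by
  obtain ⟨C, hC⟩ := hf
  exact ⟨C, fun x => hC _⟩

lemma Bdd.sum {α ι : Type*} {f : ι → α → ℝ} (s : Finset ι) (hf : ∀ i ∈ s, Bdd (f i)) :
    Bdd (fun x => ∑ i ∈ s, f i x) := by
  classical
  induction s using Finset.induction_on with
  | empty => simpa using Bdd.const (α := α) 0
  | insert a s ha ih =>
    simp only [Finset.sum_insert ha]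
    exact (hf a (Finset.mem_insert_self _ _)).add
      (ih fun i hi => hf i (Finset.mem_insert_of_mem hi))

open Classical in
/-- Indicator of a set, with real values. -/
noncomputable def ind {α : Type*} (s : Set α) (x : α) : ℝ := if x ∈ s then 1 else 0

lemma ind_nonneg {α : Type*} (s : Set α) (x : α) : 0 ≤ ind s x := by
  unfold ind; split_ifs <;> norm_num

lemma ind_le_one {α : Type*} (s : Set α) (x : α) : ind s x ≤ 1 := by
  unfold ind; split_ifs <;> norm_num

lemma ind_bdd {α : Type*} (s : Set α) : Bdd (ind s) :=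
  ⟨1, fun x => by rw [abs_of_nonneg (ind_nonneg s x)]; exact ind_le_one s x⟩

lemma ind_of_mem {α : Type*} {s : Set α} {x : α} (h : x ∈ s) : ind s x = 1 := by
  unfold ind; rw [if_pos h]

lemma ind_of_not_mem {α : Type*} {s : Set α} {x : α} (h : x ∉ s) : ind s x = 0 := by
  unfold ind; rw [if_neg h]

lemma ind_comp_bdd {α β : Type*} (s : Set β) (φ : α → β) : Bdd (fun x => ind s (φ x)) :=
  (ind_bdd s).comp φ

/-- A finitely additive mean on the bounded functions on `α`. -/
structure Mean (α : Type*) where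
  toFun : (α → ℝ) → ℝ
  mono' : ∀ f g : α → ℝ, Bdd f → Bdd g → (∀ x, f x ≤ g x) → toFun f ≤ toFun g
  add' : ∀ f g : α → ℝ, Bdd f → Bdd g → toFun (fun x => f x + g x) = toFun f + toFun g
  smul' : ∀ (c : ℝ) (f : α → ℝ), Bdd f → toFun (fun x => c * f x) = c * toFun f
  one' : toFun (fun _ => 1) = 1

namespace Mean

variable {α β γ : Type*}

instance : CoeFun (Mean α) (fun _ => (α → ℝ) → ℝ) := ⟨Mean.toFun⟩

lemma mono (m : Mean α) {f g : α → ℝ} (hf : Bdd f) (hg : Bdd g) (h : ∀ x, f x ≤ g x) :
    m f ≤ m g := m.mono' f g hf hg h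

lemma add (m : Mean α) {f g : α → ℝ} (hf : Bdd f) (hg : Bdd g) :
    m (fun x => f x + g x) = m f + m g := m.add' f g hf hg

lemma smul (m : Mean α) (c : ℝ) {f : α → ℝ} (hf : Bdd f) :
    m (fun x => c * f x) = c * m f := m.smul' c f hf

lemma const (m : Mean α) (c : ℝ) : m (fun _ => c) = c := by
  have := m.smul c (Bdd.const (α := α) 1)
  simpa [m.one'] using this

lemma neg (m : Mean α) {f : α → ℝ} (hf : Bdd f) : m (fun x => - f x) = - m f := by
  have := m.smul (-1) hf
  simpa using this

lemma sub (m : Mean α) {f g : α → ℝ} (hf : Bdd f) (hg : Bdd g) :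
    m (fun x => f x - g x) = m f - m g := by
  have := m.add hf hg.neg
  simp only [m.neg hg] at this
  simpa [sub_eq_add_neg] using this

lemma nonneg (m : Mean α) {f : α → ℝ} (hf : Bdd f) (h : ∀ x, 0 ≤ f x) : 0 ≤ m f := by
  have := m.mono (Bdd.const 0) hf h
  rwa [m.const] at this

lemma le_const (m : Mean α) {f : α → ℝ} (hf : Bdd f) {C : ℝ} (h : ∀ x, f x ≤ C) : m f ≤ C := by
  have := m.mono hf (Bdd.const C) h
  rwa [m.const] at this

lemma const_le (m : Mean α) {f : α → ℝ} (hf : Bdd f) {C : ℝ} (h : ∀ x, C ≤ f x) : C ≤ m f := by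
  have := m.mono (Bdd.const C) hf h
  rwa [m.const] at this

lemma abs_le (m : Mean α) {f : α → ℝ} {C : ℝ} (h : ∀ x, |f x| ≤ C) : |m f| ≤ C := by
  have hb : Bdd f := ⟨C, h⟩
  rw [_root_.abs_le]
  exact ⟨m.const_le hb fun x => (_root_.abs_le.1 (h x)).1,
    m.le_const hb fun x => (_root_.abs_le.1 (h x)).2⟩

lemma abs_le_abs (m : Mean α) {f : α → ℝ} (hf : Bdd f) : |m f| ≤ m (fun x => |f x|) := by
  rw [_root_.abs_le]
  constructor
  · rw [← m.neg hf.abs]
    exact m.mono hf.abs.neg hf fun x => neg_abs_le _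
  · exact m.mono hf hf.abs fun x => le_abs_self _

lemma sum (m : Mean α) {ι : Type*} (s : Finset ι) (f : ι → α → ℝ) (hf : ∀ i ∈ s, Bdd (f i)) :
    m (fun x => ∑ i ∈ s, f i x) = ∑ i ∈ s, m (f i) := by
  classical
  induction s using Finset.induction_on with
  | empty => simpa using m.const 0
  | insert a s ha ih =>
    simp only [Finset.sum_insert ha]
    rw [m.add (hf a (Finset.mem_insert_self _ _))
      (Bdd.sum s fun i hi => hf i (Finset.mem_insert_of_mem hi)),
      ih fun i hi => hf i (Finset.mem_insert_of_mem hi)]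

/-- If `|f|` has mean zero and `g` is bounded, then `f * g` has mean zero. -/
lemma mul_zero_of (m : Mean α) {f g : α → ℝ} (hf : Bdd f) (hg : Bdd g)
    (h : m (fun x => |f x|) = 0) : m (fun x => f x * g x) = 0 := by
  obtain ⟨C, hC0, hC⟩ := hg.nonneg_bound
  have h1 := m.abs_le_abs (hf.mul hg)
  have h2 : m (fun x => |f x * g x|) ≤ m (fun x => C * |f x|) := by
    apply m.mono (hf.mul hg).abs (hf.abs.smul C)
    intro x
    rw [abs_mul, mul_comm]
    exact mul_le_mul_of_nonneg_right (hC x) (abs_nonneg _)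
  rw [m.smul C hf.abs, h, mul_zero] at h2
  exact abs_eq_zero.1 (le_antisymm (h1.trans h2) (abs_nonneg _))

/-- Push forward. -/
def map (m : Mean α) (φ : α → β) : Mean β where
  toFun f := m (fun x => f (φ x))
  mono' f g hf hg h := m.mono (hf.comp φ) (hg.comp φ) fun x => h _
  add' f g hf hg := m.add (hf.comp φ) (hg.comp φ)
  smul' c f hf := m.smul c (hf.comp φ)
  one' := m.one'

@[simp] lemma map_apply (m : Mean α) (φ : α → β) (f : β → ℝ) :
    m.map φ f = m (fun x => f (φ x)) := rfl

/-- Point mass. -/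
def pure (a : α) : Mean α where
  toFun f := f a
  mono' f g _ _ h := h a
  add' _ _ _ _ := rfl
  smul' _ _ _ := rfl
  one' := rfl

@[simp] lemma pure_apply (a : α) (f : α → ℝ) : pure a f = f a := rfl

lemma bdd_bind (k : α → Mean β) {f : β → ℝ} (hf : Bdd f) : Bdd (fun a => k a f) := by
  obtain ⟨C, hC⟩ := hf
  exact ⟨C, fun a => (k a).abs_le hC⟩

/-- Bounded functions of two variables: integrating out gives a bounded function. -/
lemma bdd_bind₂ (k : α → Mean β) {f : α → β → ℝ} {C : ℝ} (hf : ∀ a b, |f a b| ≤ C) :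
    Bdd (fun a => k a (f a)) := ⟨C, fun a => (k a).abs_le (hf a)⟩

/-- Composition of a mean with a family of means. -/
def bind (m : Mean α) (k : α → Mean β) : Mean β where
  toFun f := m (fun a => k a f)
  mono' f g hf hg h := m.mono (bdd_bind k hf) (bdd_bind k hg) fun a => (k a).mono hf hg h
  add' f g hf hg := by
    have : (fun a => k a (fun x => f x + g x)) = fun a => k a f + k a g :=
      funext fun a => (k a).add hf hg
    rw [this, m.add (bdd_bind k hf) (bdd_bind k hg)]
  smul' c f hf := by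
    have : (fun a => k a (fun x => c * f x)) = fun a => c * k a f :=
      funext fun a => (k a).smul c hf
    rw [this, m.smul c (bdd_bind k hf)]
  one' := by
    have : (fun a => k a (fun _ => 1)) = fun _ => (1 : ℝ) := funext fun a => (k a).one'
    rw [this, m.one']

@[simp] lemma bind_apply (m : Mean α) (k : α → Mean β) (f : β → ℝ) :
    m.bind k f = m (fun a => k a f) := rfl

/-- Limits along ultrafilters of bounded real functions exist. -/
lemma exists_tendsto_ultra {ι : Type*} (U : Ultrafilter ι) {f : ι → ℝ} (hf : Bdd f) :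
    ∃ l, Tendsto f U (𝓝 l) := by
  obtain ⟨C, hC⟩ := hf
  have hmem : ∀ i, f i ∈ Set.Icc (-C) C := fun i => _root_.abs_le.1 (hC i)
  have hcomp : IsCompact (Set.Icc (-C) C) := isCompact_Icc
  have hle : ((U.map f : Ultrafilter ℝ) : Filter ℝ) ≤ 𝓟 (Set.Icc (-C) C) := by
    rw [le_principal_iff]
    exact Filter.mem_map.2 (Filter.univ_mem' hmem)
  obtain ⟨l, -, hl⟩ := hcomp.ultrafilter_le_nhds (U.map f) hle
  exact ⟨l, hl⟩

/-- The limit of a family of means along an ultrafilter. -/
noncomputable def ulim {ι : Type*} (U : Ultrafilter ι) (m : ι → Mean α) : Mean α where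
  toFun f := limUnder (U : Filter ι) (fun i => m i f)
  mono' f g hf hg h := by
    have h1 := tendsto_nhds_limUnder (exists_tendsto_ultra U (bdd_bind m hf))
    have h2 := tendsto_nhds_limUnder (exists_tendsto_ultra U (bdd_bind m hg))
    exact le_of_tendsto_of_tendsto' h1 h2 fun i => (m i).mono hf hg h
  add' f g hf hg := by
    have h1 := tendsto_nhds_limUnder (exists_tendsto_ultra U (bdd_bind m hf))
    have h2 := tendsto_nhds_limUnder (exists_tendsto_ultra U (bdd_bind m hg))
    have h3 := h1.add h2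
    have h4 : (fun i => m i (fun x => f x + g x)) = fun i => m i f + m i g :=
      funext fun i => (m i).add hf hg
    rw [h4]
    exact h3.limUnder_eq
  smul' c f hf := by
    have h1 := tendsto_nhds_limUnder (exists_tendsto_ultra U (bdd_bind m hf))
    have h3 := h1.const_mul c
    have h4 : (fun i => m i (fun x => c * f x)) = fun i => c * m i f :=
      funext fun i => (m i).smul c hf
    rw [h4]
    exact h3.limUnder_eq
  one' := by
    have h4 : (fun i => m i (fun _ => 1)) = fun _ => (1 : ℝ) :=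
      funext fun i => (m i).one'
    rw [h4]
    exact tendsto_const_nhds.limUnder_eq

lemma ulim_tendsto {ι : Type*} (U : Ultrafilter ι) (m : ι → Mean α) {f : α → ℝ} (hf : Bdd f) :
    Tendsto (fun i => m i f) U (𝓝 (ulim U m f)) :=
  tendsto_nhds_limUnder (exists_tendsto_ultra U (bdd_bind m hf))

/-- If the values agree on a set of the ultrafilter with a constant, the limit is the constant. -/
lemma ulim_eq {ι : Type*} (U : Ultrafilter ι) (m : ι → Mean α) {f : α → ℝ} (hf : Bdd f) {c : ℝ}
    (h : ∀ᶠ i in (U : Filter ι), m i f = c) : ulim U m f = c := by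
  have h1 := ulim_tendsto U m hf
  have h2 : Tendsto (fun i => m i f) U (𝓝 c) :=
    tendsto_const_nhds.congr' (h.mono fun i hi => hi.symm)
  exact tendsto_nhds_unique h1 h2

/-- Conditioning a mean on a set (the mean itself, when the set is null). -/
noncomputable def cond (m : Mean α) (V : Set α) : Mean α where
  toFun f := if m (ind V) = 0 then m f else m (fun x => ind V x * f x) / m (ind V)
  mono' f g hf hg h := by
    have h0 : 0 ≤ m (ind V) := m.nonneg (ind_bdd V) (ind_nonneg V)
    split_ifs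
    · exact m.mono hf hg h
    · apply div_le_div_of_nonneg_right _ h0
      exact m.mono ((ind_bdd V).mul hf) ((ind_bdd V).mul hg) fun x =>
        mul_le_mul_of_nonneg_left (h x) (ind_nonneg V x)
  add' f g hf hg := by
    split_ifs
    · exact m.add hf hg
    · have : (fun x => ind V x * (f x + g x)) = fun x => ind V x * f x + ind V x * g x :=
        funext fun x => mul_add _ _ _
      rw [this, m.add ((ind_bdd V).mul hf) ((ind_bdd V).mul hg), add_div]
  smul' c f hf := by
    split_ifs
    · exact m.smul c hf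
    · have : (fun x => ind V x * (c * f x)) = fun x => c * (ind V x * f x) :=
        funext fun x => by ring
      rw [this, m.smul c ((ind_bdd V).mul hf), mul_div_assoc]
  one' := by
    split_ifs with h
    · exact m.one'
    · have : (fun x => ind V x * 1) = ind V := funext fun x => mul_one _
      rw [this, div_self h]

lemma cond_mul (m : Mean α) (V : Set α) {f : α → ℝ} (hf : Bdd f) :
    m (ind V) * m.cond V f = m (fun x => ind V x * f x) := by
  by_cases h : m (ind V) = 0
  · rw [h, zero_mul]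
    symm
    apply m.mul_zero_of (ind_bdd V) hf
    have : (fun x => |ind V x|) = ind V := funext fun x => abs_of_nonneg (ind_nonneg V x)
    rw [this, h]
  · have : m.cond V f = m (fun x => ind V x * f x) / m (ind V) := if_neg h
    rw [this]
    field_simp

lemma cond_eq_zero (m : Mean α) {V : Set α} (hV : m (ind V) ≠ 0) {f : α → ℝ}
    (h : ∀ x ∈ V, f x = 0) : m.cond V f = 0 := by
  have h1 : m.cond V f = m (fun x => ind V x * f x) / m (ind V) := if_neg hV
  have h2 : (fun x => ind V x * f x) = fun _ => (0 : ℝ) := by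
    funext x
    by_cases hx : x ∈ V
    · rw [h x hx, mul_zero]
    · rw [ind_of_not_mem hx, zero_mul]
  rw [h1, h2, m.const, zero_div]

end Mean

end V11201.PS
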