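import Pool.Agent.V11201.PS.Base

/-!
The window bound.
-/

open Filter Topology Finset

namespace V11201.PS

open Mean

/-- Product of the first `n` entries. -/
def pr (n : ℕ) (z : Sq) : ℕ := ∏ j ∈ range n, z j

lemma pr_update (n : ℕ) (z : Sq) (t : ℕ) : pr (n + 1) (Function.update z n t) = pr n z * t := by
  unfold pr
  rw [prod_range_succ, Function.update_self]
  congr 1
  apply prod_congr rfl
  intro j hj
  rw [Function.update_of_ne (ne_of_lt (mem_range.1 hj))]

lemma null_of_le {α : Type*} (m : Mean α) {f g : α → ℝ} (hf : Bdd f) (hg : Bdd g)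
    (h0 : ∀ x, 0 ≤ f x) (h : ∀ x, f x ≤ g x) (hz : m g = 0) : m f = 0 :=
  le_antisymm ((m.mono hf hg h).trans (le_of_eq hz)) (m.nonneg hf h0)

lemma ind_mono {α : Type*} {s t : Set α} (h : s ⊆ t) (x : α) : ind s x ≤ ind t x := by
  by_cases hx : x ∈ s
  · rw [ind_of_mem hx, ind_of_mem (h hx)]
  · rw [ind_of_not_mem hx]; exact ind_nonneg _ _

lemma diffuse_aux (θ : Mean ℕ) (hθ : Diffuse θ) : ∀ m : ℕ,
    P θ m (ind {z | pr m z = 0}) = 0 ∧ ∀ N, P θ (m + 1) (ind {z | pr (m + 1) z ≤ N}) = 0 := by
  have step : ∀ m : ℕ, P θ m (ind {z | pr m z = 0}) = 0 →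
      ∀ N, P θ (m + 1) (ind {z | pr (m + 1) z ≤ N}) = 0 := by
    intro m hm N
    rw [P_succ]
    apply null_of_le (P θ m) _ (ind_bdd _) _ _ hm
    · exact Mean.bdd_bind₂ (fun _ => θ) (C := 1)
        (f := fun z t => ind {z | pr (m + 1) z ≤ N} (Function.update z m t))
        fun z t => abs_ind_le _ _
    · intro z
      exact θ.nonneg (ind_comp_bdd _ _) fun t => ind_nonneg _ _
    · intro z
      by_cases hz : pr m z = 0
      · rw [ind_of_mem (show z ∈ {z | pr m z = 0} from hz)]
        exact θ.le_const (ind_comp_bdd _ _) fun t => ind_le_one _ _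
      · rw [ind_of_not_mem (show z ∉ {z | pr m z = 0} from hz), ← hθ N]
        apply θ.mono (ind_comp_bdd _ _) (ind_bdd _)
        intro t
        by_cases ht : t ≤ N
        · rw [ind_of_mem (show t ∈ {x | x ≤ N} from ht)]
          exact ind_le_one _ _
        · rw [ind_of_not_mem]
          · exact ind_nonneg _ _
          · intro h
            apply ht
            have h' : pr m z * t ≤ N := by rw [← pr_update]; exact h
            exact (Nat.le_mul_of_pos_left t (Nat.pos_of_ne_zero hz)).trans h'
  intro m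
  induction m with
  | zero =>
    have h0 : P θ 0 (ind {z | pr 0 z = 0}) = 0 := by
      rw [P_zero, ind_of_not_mem]
      unfold pr
      simp
    exact ⟨h0, step 0 h0⟩
  | succ m ih =>
    have h0 : P θ (m + 1) (ind {z | pr (m + 1) z = 0}) = 0 := by
      apply null_of_le _ (ind_bdd _) (ind_bdd _) (ind_nonneg _) _ (ih.2 0)
      exact ind_mono fun z hz => le_of_eq hz
    exact ⟨h0, step _ h0⟩

lemma diffuse_pr (θ : Mean ℕ) (hθ : Diffuse θ) {n : ℕ} (hn : 1 ≤ n) :
    Diffuse ((P θ n).map (pr n)) := by
  intro N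
  obtain ⟨m, rfl⟩ : ∃ m, n = m + 1 := ⟨n - 1, by omega⟩
  rw [Mean.map_apply]
  exact (diffuse_aux θ hθ m).2 N

lemma pr_split {n h : ℕ} (hn : n ≤ h) (w : Sq) :
    pr h w = (∏ j ∈ range n, w j) * ∏ j ∈ range (h - n), w (n + j) := by
  unfold pr
  rw [← prod_range_add]
  congr 2
  omega

lemma win_lo {h k : ℕ} {z z' : Sq} {j i : ℕ} (h1 : j + k < h) (h2 : j + k = i) :
    win h k z z' j = z i := by
  subst h2
  unfold win
  rw [if_pos h1]

lemma win_hi {h k : ℕ} {z z' : Sq} {j i : ℕ} (h1 : h ≤ j + k) (h2 : j < h) (h3 : j + k = h + i) :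
    win h k z z' j = z' i := by
  unfold win
  rw [if_neg (by omega), if_pos h2]
  have : j + k - h = i := by omega
  rw [this]

lemma win_win {h k n : ℕ} {z z' : Sq} {j : ℕ} (h1 : n + j < h) :
    win h k z z' (n + j) = win h (k + n) z z' j := by
  by_cases h2 : j + (k + n) < h
  · rw [win_lo (i := j + (k + n)) (by omega) (by omega), win_lo h2 rfl]
  · rw [win_hi (i := j + (k + n) - h) (by omega) (by omega) (by omega),
      win_hi (i := j + (k + n) - h) (by omega) (by omega) (by omega)]

/-- The hypotheses of the disjointness lemma for two windows. -/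
lemma hyp_win {θ : Mean ℕ} (hθ : Diffuse θ) {h k n : ℕ} {L : Mean (Sq × Sq)}
    (G : Good θ h (h - 1) L) (hn : 1 ≤ n) (hk : k + n < h) :
    Hyp L (fun p => ∏ j ∈ range n, p.1 (k + j)) (fun p => ∏ j ∈ range n, p.2 (k + j))
      (fun p => ∏ j ∈ range (h - n), win h (k + n) p.1 p.2 j)
      ((P θ n).map (pr n)) ((P θ (h - n)).map (pr (h - n))) := by
  have hh : n + (h - n) = h := by omega
  have hh' : (h - n) + n = h := by omega
  refine ⟨?_, ?_, ?_, diffuse_pr θ hθ hn, diffuse_pr θ hθ (by omega)⟩
  · intro f C hf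
    have e : (fun p : Sq × Sq => f (∏ j ∈ range n, p.1 (k + j))
        (∏ j ∈ range (h - n), win h (k + n) p.1 p.2 j)) =
        fun p => (fun w : Sq => f (∏ j ∈ range n, w j) (∏ j ∈ range (h - n), w (n + j)))
          (win h k p.1 p.2) := by
      funext p
      simp only
      congr 1
      · apply prod_congr rfl
        intro j hj
        have := mem_range.1 hj
        rw [win_lo (i := k + j) (by omega) (by omega)]
      · apply prod_congr rfl
        intro j hj
        have := mem_range.1 hj
        rw [win_win (by omega)]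
    rw [e, G.win k (by omega) (fun w : Sq => f (∏ j ∈ range n, w j)
      (∏ j ∈ range (h - n), w (n + j))) ⟨C, fun w => hf _ _⟩]
    conv_lhs => rw [← hh]
    rw [P_add, Mean.map_apply]
    congr 1
    funext z
    rw [Mean.map_apply]
    congr 1
    funext w
    unfold pr
    congr 1
    · apply prod_congr rfl
      intro j hj
      unfold cat
      rw [if_pos (mem_range.1 hj)]
    · rw [hh]
      apply prod_congr rfl
      intro j hj
      unfold cat
      rw [if_neg (by omega), Nat.add_sub_cancel_left]
  · intro f C hf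
    have e : (fun p : Sq × Sq => f (∏ j ∈ range n, p.2 (k + j))
        (∏ j ∈ range (h - n), win h (k + n) p.1 p.2 j)) =
        fun p => (fun w : Sq => f (∏ j ∈ range n, w (h - n + j)) (∏ j ∈ range (h - n), w j))
          (win h (k + n) p.1 p.2) := by
      funext p
      simp only
      congr 1
      apply prod_congr rfl
      intro j hj
      have := mem_range.1 hj
      rw [win_hi (i := k + j) (by omega) (by omega) (by omega)]
    rw [e, G.win (k + n) (by omega) (fun w : Sq => f (∏ j ∈ range n, w (h - n + j))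
      (∏ j ∈ range (h - n), w j)) ⟨C, fun w => hf _ _⟩]
    have e2 : P θ h (fun w : Sq => f (∏ j ∈ range n, w (h - n + j))
      (∏ j ∈ range (h - n), w j)) = P θ ((h - n) + n) (fun w : Sq =>
        f (∏ j ∈ range n, w (h - n + j)) (∏ j ∈ range (h - n), w j)) := by rw [hh']
    rw [e2, P_add, Mean.map_apply]
    congr 1
    funext z
    rw [Mean.map_apply]
    congr 1
    funext w
    unfold pr
    congr 1
    · apply prod_congr rfl
      intro j hj
      unfold cat
      rw [if_neg (by omega), Nat.add_sub_cancel_left]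
    · apply prod_congr rfl
      intro j hj
      unfold cat
      rw [if_pos (mem_range.1 hj)]
  · intro F hF
    have h1 := G.eq (fun z => F (∏ j ∈ range n, z (k + j))) (hF.comp _)
    rw [← h1]
    congr 1
    funext p
    have e : ∀ z : Sq, ∏ j ∈ range n, trunc (h - 1) z (k + j) = ∏ j ∈ range n, z (k + j) := by
      intro z
      apply prod_congr rfl
      intro j hj
      have := mem_range.1 hj
      unfold trunc
      rw [if_pos (by omega)]
    rw [e, e]

lemma sum_le_pairs (E : ℕ → ℝ) (hE : ∀ k, E k = 0 ∨ E k = 1) (h : ℕ) :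
    ∑ k ∈ range h, E k ≤ 1 + ∑ l ∈ range h, ∑ k ∈ range l, E k * E l := by
  have h0 : ∀ k, 0 ≤ E k := fun k => by rcases hE k with h | h <;> rw [h] <;> norm_num
  induction h with
  | zero => simp
  | succ h ih =>
    rw [sum_range_succ, sum_range_succ (fun l => ∑ k ∈ range l, E k * E l)]
    rcases hE h with h1 | h1
    · rw [h1]
      simp only [mul_zero, sum_const_zero]
      linarith
    · rw [h1]
      simp only [mul_one]
      have : 0 ≤ ∑ l ∈ range h, ∑ k ∈ range l, E k * E l :=
        sum_nonneg fun l _ => sum_nonneg fun k _ => mul_nonneg (h0 _) (h0 _)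
      linarith

/-- The window bound. -/
theorem window_bound (θ : Mean ℕ) (hθ : Diffuse θ) {T : Set ℕ} (hT : PFree T) (h : ℕ) :
    (h : ℝ) * P θ h (fun w => ind T (pr h w)) ≤ 1 := by
  rcases Nat.eq_zero_or_pos h with rfl | hpos
  · simp
  obtain ⟨L, G⟩ := exists_good θ h (h - 1) (by omega)
  set E : ℕ → Sq × Sq → ℝ := fun k p => ind T (pr h (win h k p.1 p.2)) with hE
  have hEb : ∀ k, Bdd (E k) := fun k => ind_comp_bdd T fun p : Sq × Sq => pr h (win h k p.1 p.2)
  have hEm : ∀ k ∈ range h, L (E k) = P θ h (fun w => ind T (pr h w)) := fun k hk =>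
    G.win k (by have := mem_range.1 hk; omega) (fun w => ind T (pr h w)) (ind_comp_bdd _ _)
  have hpair : ∀ l ∈ range h, ∀ k ∈ range l, L (fun p => E k p * E l p) = 0 := by
    intro l hl k hk
    have hl' := mem_range.1 hl
    have hk' := mem_range.1 hk
    obtain ⟨n, rfl⟩ : ∃ n, l = k + n := ⟨l - k, by omega⟩
    have H := hyp_win hθ G (k := k) (n := n) (by omega) (by omega)
    have H0 := H.disjoint hT
    rw [← H0]
    congr 1
    funext p
    simp only [hE]
    have p1 : pr h (win h k p.1 p.2) = (∏ j ∈ range n, p.1 (k + j)) *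
        ∏ j ∈ range (h - n), win h (k + n) p.1 p.2 j := by
      rw [pr_split (n := n) (by omega)]
      congr 1
      · apply prod_congr rfl
        intro j hj
        have := mem_range.1 hj
        rw [win_lo (i := k + j) (by omega) (by omega)]
      · apply prod_congr rfl
        intro j hj
        have := mem_range.1 hj
        rw [win_win (by omega)]
    have p2 : pr h (win h (k + n) p.1 p.2) = (∏ j ∈ range n, p.2 (k + j)) *
        ∏ j ∈ range (h - n), win h (k + n) p.1 p.2 j := by
      rw [pr_split (n := h - n) (by omega), mul_comm]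
      congr 1
      have : h - (h - n) = n := by omega
      rw [this]
      apply prod_congr rfl
      intro j hj
      have := mem_range.1 hj
      rw [win_hi (i := k + j) (by omega) (by omega) (by omega)]
    rw [p1, p2]
  have hsum : L (fun p => ∑ k ∈ range h, E k p) ≤
      L (fun p => 1 + ∑ l ∈ range h, ∑ k ∈ range l, E k p * E l p) := by
    apply L.mono (Bdd.sum _ fun k _ => hEb k) ((Bdd.const 1).add
      (Bdd.sum _ fun l _ => Bdd.sum _ fun k _ => (hEb k).mul (hEb l)))
    intro p
    exact sum_le_pairs (fun k => E k p) (fun k => by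
      simp only [hE]
      by_cases hx : pr h (win h k p.1 p.2) ∈ T
      · right; exact ind_of_mem hx
      · left; exact ind_of_not_mem hx) h
  rw [L.sum _ _ fun k _ => hEb k, sum_congr rfl hEm, sum_const, card_range, nsmul_eq_mul,
    L.add (Bdd.const 1) (Bdd.sum _ fun l _ => Bdd.sum _ fun k _ => (hEb k).mul (hEb l)),
    Mean.const, L.sum _ _ fun l _ => Bdd.sum _ fun k _ => (hEb k).mul (hEb l)] at hsum
  have hz : ∑ l ∈ range h, L (fun p => ∑ k ∈ range l, E k p * E l p) = 0 := by
    apply sum_eq_zero
    intro l hl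
    rw [L.sum _ _ fun k _ => (hEb k).mul (hEb l)]
    exact sum_eq_zero fun k hk => hpair l hl k hk
  rw [hz, add_zero] at hsum
  exact hsum

end V11201.PS
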